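import Mathlib
import Pool.Agent.H6.CT2
import Pool.Agent.H6.Nice
import Pool.Agent.H6.Major

/-!
# MP_103a5c_GP, block M (moments): definitions

Project MP_103a5c_GP (small and large gaps between zeros of zeta, a theorem under RH by helper14).
Block M proves that all moments, over `t` in `[cT, CT]`, of linear statistics of the zeros at scale
`1 / log T` and of prime sums `Σ_p G (log p / log T) p^(-1/2 - i t)` (of ANY length `T^β`, `β < 1`)
are `O(T)`.  Here `L = log T` always.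
-/

open MeasureTheory Set Filter Topology
open scoped Real Interval ContDiff

namespace Pool.Agent.H98.GP

open Pool.Agent.H6

/-- All moments of `F T` over `[cT, CT]` are `O(T)` (for all `0 < c < C`). -/
structure Mom (F : ℝ → ℝ → ℝ) : Prop where
  cont : ∀ᶠ T in atTop, Continuous (F T)
  bdd : ∀ (k : ℕ) (c C : ℝ), 0 < c → c < C →
    ∃ K : ℝ, ∀ᶠ T in atTop, ∫ t in (c * T)..(C * T), F T t ^ (2 * k) ≤ K * T

/-- The profile `1 / (1 + u ^ 2) ^ 2`. -/
noncomputable def ph0 (u : ℝ) : ℝ := 1 / (1 + u ^ 2) ^ 2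

/-- The scaled majorant `Maj (2 η u)` (band `η`). -/
noncomputable def MajS (η u : ℝ) : ℝ := Maj (2 * η * u)

/-- The primes up to `exp (s L)`. -/
noncomputable def PS (s L : ℝ) : Finset ℕ := (Finset.Icc 2 ⌊Real.exp (s * L)⌋₊).filter Nat.Prime

/-- The cosine sum `Σ_{p ≤ exp L} G (log p / L) p^(-1/2) cos (t log p)`. -/
noncomputable def CP (G : ℝ → ℝ) (L t : ℝ) : ℝ :=
  ∑ p ∈ PS 1 L, G (Real.log p / L) * (p : ℝ) ^ (-(1 / 2) : ℝ) * Real.cos (t * Real.log p)

/-- The sine sum `Σ_{p ≤ exp L} G (log p / L) p^(-1/2) sin (t log p)`. -/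
noncomputable def SP (G : ℝ → ℝ) (L t : ℝ) : ℝ :=
  ∑ p ∈ PS 1 L, G (Real.log p / L) * (p : ℝ) ^ (-(1 / 2) : ℝ) * Real.sin (t * Real.log p)

end Pool.Agent.H98.GP
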