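import Mathlib
import Pool.Agent.H98.GP.D

/-!
# MP_103a5c_GP, block M, row Mc: prime powers contribute O(1)

PROOF of (1).  Let `g n = Λ n` if `n` is not prime, else `0`; so `0 ≤ g` and
`Σ_{n ≤ x} g n = ψ x - θ x ≤ C0 √x` (`Chebyshev.psi_sub_theta_eq_sum_not_prime`,
`Chebyshev.psi_sub_theta_le_mul_sqrt`).  By induction on `j`:
`Σ_{2 ≤ n < 2^j, n not prime} Λ n n^(-1/2) ≤ 2 C0' j` with `C0' = max C0 0`: the block
`2^j ≤ n < 2^(j+1)` contributes at most `(2^j)^(-1/2) (ψ - θ)(2^(j+1)) ≤ (2^j)^(-1/2) C0' (2^(j+1))^(1/2)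
= √2 C0' ≤ 2 C0'`.  For `N ≥ 1` choose `j = Nat.log 2 N + 1`, `N < 2^j` (`Nat.lt_pow_succ_log_self`),
`j ≤ 1 + log N / log 2` (`Real.natLog_le_logb` or `2^(Nat.log 2 N) ≤ N`), `1 / log 2 ≤ 2`: the sum is at most
`2 C0' (1 + 2 log N) ≤ 4 C0' (1 + log N)`.  For `N = 0` the sum is empty and `log 0 = 0`.

PROOF of (2).  `WW_eq_sum` (namespace Pool.Agent.H6, file Assembly): with `N = ⌊exp (s L)⌋₊`,
`WW φ L t = (2/L) Σ_{n ∈ Icc 2 N} bb φ L n cos (t log n)`.  Split into primes (`PS s L`, by definition the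
filter) and non-primes (`Finset.sum_filter_add_sum_filter_not`).  The non-prime part is at most
`(2/L) Σ Λ n n^(-1/2) |cosT φ (log n / L)| ≤ (2/L) B C1 (1 + log N)` where `B` bounds `|cosT φ|`
(`cosT φ` is continuous with compact support: `TestFn.continuous_cosT`, `TestFn.hasCompactSupport_cosT`,
`Continuous.bounded_above_of_compact_support`), `C1` from (1), and `log N ≤ s L` (`N ≤ exp (s L)`,
`Real.log_le_log`, `N ≥ 1`), so `≤ 2 B C1 (1 + s)` because `L ≥ 1`.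

PROOF of (3).  `Σ_{p ∈ PS s L} ((2/L) bb φ L p)^2 ≤ 4 * ((1/L^2) Σ_{n ∈ Icc 2 N} bb φ L n ^ 2)`
(subset, nonnegative terms), and the bracket converges as `L → ∞` (`tendsto_sum_bb_sq`, file CT), hence is
eventually bounded by (limit + 1).
-/

open MeasureTheory Set Filter Topology
open scoped Real Interval ContDiff

namespace Pool.Agent.H98.GP

open Pool.Agent.H6

theorem Mc_block {C0 : ℝ} (h0 : 0 ≤ C0)
    (hC : ∀ x, Chebyshev.psi x - Chebyshev.theta x ≤ C0 * √x) (j : ℕ) :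
    ∑ n ∈ (Finset.Ico (2 ^ j) (2 ^ (j + 1))).filter (fun n => ¬ n.Prime),
      ArithmeticFunction.vonMangoldt n * (n : ℝ) ^ (-(1 / 2) : ℝ) ≤ 2 * C0 := by
  have hpos : (0 : ℝ) < 2 ^ j := by positivity
  have hc : 0 ≤ ((2 : ℝ) ^ j) ^ (-(1 / 2) : ℝ) := Real.rpow_nonneg hpos.le _
  have h1 : ∑ n ∈ (Finset.Ico (2 ^ j) (2 ^ (j + 1))).filter (fun n => ¬ n.Prime),
      ArithmeticFunction.vonMangoldt n * (n : ℝ) ^ (-(1 / 2) : ℝ) ≤
      (∑ n ∈ (Finset.Ico (2 ^ j) (2 ^ (j + 1))).filter (fun n => ¬ n.Prime),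
        ArithmeticFunction.vonMangoldt n) * ((2 : ℝ) ^ j) ^ (-(1 / 2) : ℝ) := by
    rw [Finset.sum_mul]
    refine Finset.sum_le_sum fun n hn => ?_
    have hn1 := (Finset.mem_Ico.1 (Finset.mem_filter.1 hn).1).1
    have hn2 : ((2 : ℝ) ^ j) ≤ n := by exact_mod_cast hn1
    exact mul_le_mul_of_nonneg_left
      (Real.rpow_le_rpow_of_nonpos hpos hn2 (by norm_num)) ArithmeticFunction.vonMangoldt_nonneg
  have h2 : ∑ n ∈ (Finset.Ico (2 ^ j) (2 ^ (j + 1))).filter (fun n => ¬ n.Prime),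
      ArithmeticFunction.vonMangoldt n ≤ C0 * √((2 : ℝ) ^ (j + 1)) := by
    refine le_trans ?_ (hC ((2 : ℝ) ^ (j + 1)))
    rw [Chebyshev.psi_sub_theta_eq_sum_not_prime]
    refine Finset.sum_le_sum_of_subset_of_nonneg ?_ fun n _ _ =>
      ArithmeticFunction.vonMangoldt_nonneg
    intro n hn
    rw [Finset.mem_filter, Finset.mem_Ico] at hn
    rw [Finset.mem_filter, Finset.mem_Ioc]
    have hfl : ⌊(2 : ℝ) ^ (j + 1)⌋₊ = 2 ^ (j + 1) := by
      have : ((2 : ℝ) ^ (j + 1)) = ((2 ^ (j + 1) : ℕ) : ℝ) := by push_cast; ring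
      rw [this, Nat.floor_natCast]
    rw [hfl]
    exact ⟨⟨lt_of_lt_of_le (by positivity) hn.1.1, hn.1.2.le⟩, hn.2⟩
  have h3 : √((2 : ℝ) ^ (j + 1)) * ((2 : ℝ) ^ j) ^ (-(1 / 2) : ℝ) ≤ 2 := by
    rw [Real.rpow_neg hpos.le, ← Real.sqrt_eq_rpow, pow_succ, Real.sqrt_mul hpos.le]
    have h4 : 0 < √((2 : ℝ) ^ j) := Real.sqrt_pos.2 hpos
    have h5 : √((2 : ℝ) ^ j) * √2 * (√((2 : ℝ) ^ j))⁻¹ = √2 := by field_simp
    rw [h5]
    rw [Real.sqrt_le_left (by norm_num)]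
    norm_num
  calc _ ≤ _ := h1
    _ ≤ (C0 * √((2 : ℝ) ^ (j + 1))) * ((2 : ℝ) ^ j) ^ (-(1 / 2) : ℝ) :=
      mul_le_mul_of_nonneg_right h2 hc
    _ = C0 * (√((2 : ℝ) ^ (j + 1)) * ((2 : ℝ) ^ j) ^ (-(1 / 2) : ℝ)) := by ring
    _ ≤ C0 * 2 := mul_le_mul_of_nonneg_left h3 h0
    _ = 2 * C0 := by ring

theorem Mc_range {C0 : ℝ} (h0 : 0 ≤ C0)
    (hC : ∀ x, Chebyshev.psi x - Chebyshev.theta x ≤ C0 * √x) (j : ℕ) :
    ∑ n ∈ (Finset.range (2 ^ j)).filter (fun n => ¬ n.Prime),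
      ArithmeticFunction.vonMangoldt n * (n : ℝ) ^ (-(1 / 2) : ℝ) ≤ 2 * C0 * j := by
  induction j with
  | zero =>
    have h1 : (Finset.range (2 ^ 0)).filter (fun n => ¬ n.Prime) ⊆ {0} := by
      intro n hn
      rw [Finset.mem_filter, Finset.mem_range, pow_zero] at hn
      rw [Finset.mem_singleton]
      omega
    refine (Finset.sum_le_sum_of_subset_of_nonneg h1 fun n _ _ =>
      mul_nonneg ArithmeticFunction.vonMangoldt_nonneg
        (Real.rpow_nonneg (Nat.cast_nonneg n) _)).trans ?_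
    rw [Finset.sum_singleton]
    simp
  | succ j ih =>
    have h1 : (Finset.range (2 ^ (j + 1))).filter (fun n => ¬ n.Prime) =
        (Finset.range (2 ^ j)).filter (fun n => ¬ n.Prime) ∪
          (Finset.Ico (2 ^ j) (2 ^ (j + 1))).filter (fun n => ¬ n.Prime) := by
      ext n
      simp only [Finset.mem_union, Finset.mem_filter, Finset.mem_range, Finset.mem_Ico]
      have : 2 ^ j ≤ 2 ^ (j + 1) := Nat.pow_le_pow_right (by norm_num) (by omega)
      constructor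
      · rintro ⟨h, hp⟩
        rcases lt_or_ge n (2 ^ j) with h' | h'
        · exact Or.inl ⟨h', hp⟩
        · exact Or.inr ⟨⟨h', h⟩, hp⟩
      · rintro (⟨h, hp⟩ | ⟨⟨h, h'⟩, hp⟩)
        · exact ⟨lt_of_lt_of_le h this, hp⟩
        · exact ⟨h', hp⟩
    rw [h1, Finset.sum_union]
    · have h2 := Mc_block h0 hC j
      push_cast
      linarith
    · rw [Finset.disjoint_left]
      intro n hn hn'
      rw [Finset.mem_filter, Finset.mem_range] at hn
      rw [Finset.mem_filter, Finset.mem_Ico] at hn'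
      omega

/-- (1) -/
theorem sum_nonprime_le : ∃ C : ℝ, 0 ≤ C ∧ ∀ N : ℕ,
    ∑ n ∈ (Finset.Icc 2 N).filter (fun n => ¬ n.Prime),
      ArithmeticFunction.vonMangoldt n * (n : ℝ) ^ (-(1 / 2) : ℝ) ≤ C * (1 + Real.log N) := by
  obtain ⟨C', hC'⟩ := Chebyshev.psi_sub_theta_le_mul_sqrt
  obtain ⟨C0, h0, hC⟩ : ∃ C0 : ℝ, 0 ≤ C0 ∧
      ∀ x, Chebyshev.psi x - Chebyshev.theta x ≤ C0 * √x :=
    ⟨max C' 0, le_max_right _ _, fun x => (hC' x).trans
      (mul_le_mul_of_nonneg_right (le_max_left _ _) (Real.sqrt_nonneg _))⟩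
  refine ⟨4 * C0, by positivity, fun N => ?_⟩
  rcases Nat.eq_zero_or_pos N with hN | hN
  · subst hN
    simp
    exact h0
  · have hlt : N < 2 ^ (Nat.log 2 N + 1) := Nat.lt_pow_succ_log_self (by norm_num) N
    have hsub : (Finset.Icc 2 N).filter (fun n => ¬ n.Prime) ⊆
        (Finset.range (2 ^ (Nat.log 2 N + 1))).filter (fun n => ¬ n.Prime) := by
      intro n hn
      rw [Finset.mem_filter, Finset.mem_Icc] at hn
      rw [Finset.mem_filter, Finset.mem_range]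
      exact ⟨by omega, hn.2⟩
    refine (Finset.sum_le_sum_of_subset_of_nonneg hsub fun n _ _ =>
      mul_nonneg ArithmeticFunction.vonMangoldt_nonneg
        (Real.rpow_nonneg (Nat.cast_nonneg n) _)).trans ?_
    refine (Mc_range h0 hC _).trans ?_
    have hle : 2 ^ Nat.log 2 N ≤ N := Nat.pow_log_le_self 2 hN.ne'
    have h1 : (Nat.log 2 N : ℝ) * Real.log 2 ≤ Real.log N := by
      rw [← Real.log_pow]
      exact Real.log_le_log (by positivity) (by exact_mod_cast hle)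
    have h2 : (1 : ℝ) / 2 ≤ Real.log 2 := by linarith [Real.log_two_gt_d9]
    have h3 : (Nat.log 2 N : ℝ) * (1 / 2) ≤ Real.log N :=
      (mul_le_mul_of_nonneg_left h2 (Nat.cast_nonneg _)).trans h1
    push_cast
    nlinarith

/-- (2) `WW` is its prime part up to `O(1)`. -/
theorem WW_sub_prime {s : ℝ} {φ : ℝ → ℝ} (hφ : TestFn s φ) (hs : 0 < s) :
    ∃ C : ℝ, 0 ≤ C ∧ ∀ L : ℝ, 1 ≤ L → ∀ t : ℝ,
      |WW φ L t - ∑ p ∈ PS s L, (2 / L * bb φ L p) * Real.cos (t * Real.log p)| ≤ C := by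
  obtain ⟨C1, hC1, hsum⟩ := sum_nonprime_le
  obtain ⟨B', hB'⟩ := hφ.continuous_cosT.bounded_above_of_compact_support
    hφ.hasCompactSupport_cosT
  obtain ⟨B, hB0, hB⟩ : ∃ B : ℝ, 0 ≤ B ∧ ∀ x, |cosT φ x| ≤ B :=
    ⟨max B' 0, le_max_right _ _, fun x => by
      have := hB' x
      rw [Real.norm_eq_abs] at this
      exact this.trans (le_max_left _ _)⟩
  refine ⟨2 * B * C1 * (1 + s), by positivity, fun L hL t => ?_⟩
  have hL0 : 0 < L := by linarith
  obtain ⟨N, hN⟩ : ∃ N : ℕ, N = ⌊Real.exp (s * L)⌋₊ := ⟨_, rfl⟩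
  have hPS : PS s L = (Finset.Icc 2 N).filter Nat.Prime := by rw [hN]; rfl
  have e1 : WW φ L t - ∑ p ∈ PS s L, (2 / L * bb φ L p) * Real.cos (t * Real.log p) =
      (2 / L) * ∑ n ∈ (Finset.Icc 2 N).filter (fun n => ¬ n.Prime),
        bb φ L n * Real.cos (t * Real.log n) := by
    rw [WW_eq_sum hφ hL0, ← hN, hPS,
      ← Finset.sum_filter_add_sum_filter_not (Finset.Icc 2 N) Nat.Prime, mul_add,
      Finset.mul_sum ((Finset.Icc 2 N).filter Nat.Prime)]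
    have e2 : ∑ p ∈ (Finset.Icc 2 N).filter Nat.Prime,
        (2 / L * bb φ L p) * Real.cos (t * Real.log p) =
        ∑ p ∈ (Finset.Icc 2 N).filter Nat.Prime,
          2 / L * (bb φ L p * Real.cos (t * Real.log p)) :=
      Finset.sum_congr rfl fun p _ => mul_assoc _ _ _
    rw [e2]
    ring
  rw [e1, abs_mul, abs_of_nonneg (by positivity : (0 : ℝ) ≤ 2 / L)]
  have h1 : |∑ n ∈ (Finset.Icc 2 N).filter (fun n => ¬ n.Prime),
      bb φ L n * Real.cos (t * Real.log n)| ≤ B * (C1 * (1 + Real.log N)) := by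
    refine (Finset.abs_sum_le_sum_abs _ _).trans ?_
    refine le_trans ?_ (mul_le_mul_of_nonneg_left (hsum N) hB0)
    rw [Finset.mul_sum]
    refine Finset.sum_le_sum fun n _ => ?_
    have hn0 : 0 ≤ ArithmeticFunction.vonMangoldt n * (n : ℝ) ^ (-(1 / 2) : ℝ) :=
      mul_nonneg ArithmeticFunction.vonMangoldt_nonneg (Real.rpow_nonneg (Nat.cast_nonneg n) _)
    unfold bb
    rw [abs_mul, abs_mul, abs_of_nonneg hn0]
    have hc := Real.abs_cos_le_one (t * Real.log n)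
    have hb := hB (Real.log n / L)
    calc ArithmeticFunction.vonMangoldt n * (n : ℝ) ^ (-(1 / 2) : ℝ) * |cosT φ (Real.log n / L)| *
          |Real.cos (t * Real.log n)|
        ≤ ArithmeticFunction.vonMangoldt n * (n : ℝ) ^ (-(1 / 2) : ℝ) * B * 1 := by
          refine mul_le_mul (mul_le_mul_of_nonneg_left hb hn0) hc (abs_nonneg _)
            (mul_nonneg hn0 hB0)
      _ = B * (ArithmeticFunction.vonMangoldt n * (n : ℝ) ^ (-(1 / 2) : ℝ)) := by ring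
  have hexp : 1 ≤ Real.exp (s * L) := Real.one_le_exp (by positivity)
  have hN1 : 1 ≤ N := by
    rw [hN]
    exact Nat.le_floor (by exact_mod_cast hexp)
  have hlog : Real.log N ≤ s * L := by
    have h2 : (N : ℝ) ≤ Real.exp (s * L) := by
      rw [hN]
      exact Nat.floor_le (Real.exp_pos _).le
    have h3 := Real.log_le_log (by exact_mod_cast hN1) h2
    rwa [Real.log_exp] at h3
  have h2 : B * (C1 * (1 + Real.log N)) ≤ B * (C1 * (L * (1 + s))) := by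
    refine mul_le_mul_of_nonneg_left (mul_le_mul_of_nonneg_left ?_ hC1) hB0
    nlinarith
  calc 2 / L * |∑ n ∈ (Finset.Icc 2 N).filter (fun n => ¬ n.Prime),
        bb φ L n * Real.cos (t * Real.log n)|
      ≤ 2 / L * (B * (C1 * (L * (1 + s)))) :=
        mul_le_mul_of_nonneg_left (h1.trans h2) (by positivity)
    _ = 2 * B * C1 * (1 + s) := by
        field_simp

/-- (3) The coefficients of the prime part have bounded square sum. -/
theorem sum_coeff_sq (P : PrimeInput) {s : ℝ} {φ : ℝ → ℝ} (hφ : TestFn s φ) :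
    ∃ B : ℝ, 0 ≤ B ∧ ∀ᶠ L in atTop, ∑ p ∈ PS s L, (2 / L * bb φ L p) ^ 2 ≤ B := by
  obtain ⟨l, hl⟩ : ∃ l, l = (1 / 2) * ∫ ξ, |ξ| * (cosT φ ξ) ^ 2 := ⟨_, rfl⟩
  have ht := tendsto_sum_bb_sq P hφ
  rw [← hl] at ht
  have hev := ht.eventually (gt_mem_nhds (lt_add_one l))
  refine ⟨4 * (|l| + 1), by positivity, ?_⟩
  filter_upwards [hev] with L hL
  have h1 : ∑ p ∈ PS s L, (2 / L * bb φ L p) ^ 2 ≤
      ∑ n ∈ Finset.Icc 2 ⌊Real.exp (s * L)⌋₊, (2 / L * bb φ L n) ^ 2 :=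
    Finset.sum_le_sum_of_subset_of_nonneg (Finset.filter_subset _ _) fun n _ _ => sq_nonneg _
  have h2 : ∑ n ∈ Finset.Icc 2 ⌊Real.exp (s * L)⌋₊, (2 / L * bb φ L n) ^ 2 =
      4 * ((1 / L ^ 2) * ∑ n ∈ Finset.Icc 2 ⌊Real.exp (s * L)⌋₊, bb φ L n ^ 2) := by
    rw [Finset.mul_sum, Finset.mul_sum]
    refine Finset.sum_congr rfl fun n _ => ?_
    ring
  have h3 := le_abs_self l
  rw [h2] at h1
  linarith

end Pool.Agent.H98.GP
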