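import Mathlib
import Pool.Agent.H98.GP.D

/-!
# MP_103a5c_GP, block M, row Ma: the number of factorisations into k primes

PROOF.  Let `g, f : Fin k → ℕ` have prime values and `∏ g = ∏ f =: n`.  By
`Nat.primeFactorsList_unique` the lists `List.ofFn g` and `List.ofFn f` (product `n` by
`List.prod_ofFn`, all entries prime) are both permutations of `n.primeFactorsList`, hence
`List.ofFn g ~ List.ofFn f`.  So `Multiset.map g univ = Multiset.map f univ`
(`List.ofFn` as a multiset; or `List.Perm.prod_eq` directly for (2)).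
(2) `∏ b (g i) = ((List.ofFn g).map b).prod` (`List.map_ofFn`, `List.prod_ofFn`) and `List.Perm.map`,
`List.Perm.prod_eq`.
(1) There is `σ : Equiv.Perm (Fin k)` with `g = f ∘ σ`: `Equiv.Perm` from equal multisets of values
(for instance for each value `v` the fibres `{i | g i = v}` and `{i | f i = v}` have the same
cardinality (`List.Perm.count_eq` and `List.count_ofFn` or so), so `Equiv.sigmaFiberEquiv` gives a
bijection; or `List.ofFn_perm...`/`Equiv.Perm.exists...`; Mathlib may have
`List.perm_ofFn_iff`, `Multiset.map_univ_eq_iff` : `Multiset.map f univ = Multiset.map g univ ↔ ∃ σ, f = g ∘ σ`).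
Hence the filtered set is contained in the image of `univ : Finset (Equiv.Perm (Fin k))` under
`σ ↦ f ∘ σ`, whose cardinality is at most `card (Perm (Fin k)) = k !` (`Finset.card_image_le`,
`Fintype.card_perm`, `Fintype.card_fin`).
-/

open MeasureTheory Set Filter Topology
open scoped Real Interval ContDiff

namespace Pool.Agent.H98.GP

open Pool.Agent.H6

theorem Ma_perm (k : ℕ) (g f : Fin k → ℕ) (hg : ∀ i, (g i).Prime) (hf : ∀ i, (f i).Prime)
    (h : ∏ i, g i = ∏ i, f i) : List.Perm (List.ofFn g) (List.ofFn f) := by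
  have h1 : List.Perm (List.ofFn g) (Nat.primeFactorsList (∏ i, f i)) := by
    apply Nat.primeFactorsList_unique
    · rw [List.prod_ofFn, h]
    · intro p hp
      rw [List.mem_ofFn] at hp
      obtain ⟨i, rfl⟩ := hp
      exact hg i
  have h2 : List.Perm (List.ofFn f) (Nat.primeFactorsList (∏ i, f i)) := by
    apply Nat.primeFactorsList_unique
    · rw [List.prod_ofFn]
    · intro p hp
      rw [List.mem_ofFn] at hp
      obtain ⟨i, rfl⟩ := hp
      exact hf i
  exact h1.trans h2.symm

theorem Ma_exists (k : ℕ) (g f : Fin k → ℕ) (h : List.Perm (List.ofFn g) (List.ofFn f)) :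
    ∃ σ : Equiv.Perm (Fin k), g = f ∘ σ := by
  have h1 : g ∘ Tuple.sort g = f ∘ Tuple.sort f :=
    List.ofFn_injective <|
      ((((Tuple.sort g).ofFn_comp_perm g).trans h).trans
        ((Tuple.sort f).ofFn_comp_perm f).symm).eq_of_pairwise'
      (Tuple.monotone_sort g).sortedLE_ofFn.pairwise (Tuple.monotone_sort f).sortedLE_ofFn.pairwise
  refine ⟨(Tuple.sort g).symm.trans (Tuple.sort f), ?_⟩
  funext i
  have h2 := congrFun h1 ((Tuple.sort g).symm i)
  simpa using h2

/-- (1) At most `k!` factorisations of a number into `k` primes (ordered). -/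
theorem card_same_prod (k : ℕ) (S : Finset ℕ) (hS : ∀ p ∈ S, p.Prime) (f : Fin k → ℕ) (hf : ∀ i, f i ∈ S) :
    ((Fintype.piFinset (fun _ : Fin k => S)).filter (fun g => ∏ i, g i = ∏ i, f i)).card ≤ k.factorial := by
  classical
  have h1 : (Fintype.piFinset (fun _ : Fin k => S)).filter (fun g => ∏ i, g i = ∏ i, f i) ⊆
      (Finset.univ : Finset (Equiv.Perm (Fin k))).image (fun σ : Equiv.Perm (Fin k) => f ∘ σ) := by
    intro g hg
    rw [Finset.mem_filter, Fintype.mem_piFinset] at hg
    obtain ⟨σ, hσ⟩ := Ma_exists k g f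
      (Ma_perm k g f (fun i => hS _ (hg.1 i)) (fun i => hS _ (hf i)) hg.2)
    rw [Finset.mem_image]
    exact ⟨σ, Finset.mem_univ _, hσ.symm⟩
  refine (Finset.card_le_card h1).trans (Finset.card_image_le.trans ?_)
  rw [Finset.card_univ, Fintype.card_perm, Fintype.card_fin]

/-- (2) Products of weights over two factorisations agree. -/
theorem prod_eq_of_same (k : ℕ) (g f : Fin k → ℕ) (hg : ∀ i, (g i).Prime) (hf : ∀ i, (f i).Prime)
    (h : ∏ i, g i = ∏ i, f i) (b : ℕ → ℝ) : ∏ i, b (g i) = ∏ i, b (f i) := by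
  have h1 := ((Ma_perm k g f hg hf h).map b).prod_eq
  rw [List.map_ofFn, List.map_ofFn, List.prod_ofFn, List.prod_ofFn] at h1
  exact h1

end Pool.Agent.H98.GP
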