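import Mathlib
import Pool.Agent.H98.GP.D
import Pool.Agent.H98.GP.Ma

/-!
# MP_103a5c_GP, block M, row Mb: high moments of short prime polynomials

PROOF.  Write `D t = Σ_{p ∈ S} b p e(-t log p)`.  `‖D‖^(2k) = ‖D^k‖^2` and (`Finset.sum_pow'` or
`Finset.prod_univ_sum` with `Fin.prod_const`: `(Σ_{p∈S} x p)^k = Σ_{f ∈ piFinset (fun _ : Fin k => S)} ∏ x (f i)`)
`D^k = Σ_f B f e(-t log n_f)` with `B f = ∏ b (f i)`, `n_f = ∏ f i`, `1 ≤ n_f ≤ N^k`
(`Real.log_prod`, exponentials of sums).  Hence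
`‖D t‖^(2k) = re (D^k conj(D^k)) = Σ_f Σ_g B f B g cos (t (log n_g - log n_f))`.
Integrate term by term over `[T1, T2]` (finite sums of continuous functions).
 * Terms with `n_f = n_g`: integral `(T2 - T1) B f B g`, and `B g = B f` by `prod_eq_of_same`; for
   each `f` there are at most `k!` such `g` (`card_same_prod`).  Total
   `≤ k! (T2 - T1) Σ_f (B f)^2 = k! (T2 - T1) (Σ b p^2)^k` (same expansion for squares).
 * Terms with `m = n_g ≠ n = n_f`: `|∫ cos (t ω)| = |(sin (T2 ω) - sin (T1 ω)) / ω| ≤ 2 / |ω|`,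
   `ω = log m - log n`; if `m > n ≥ 1` then `log m - log n ≥ 1 - n / m ≥ 1 / m ≥ 1 / N^k`
   (`Real.one_sub_inv_le_log_of_pos` applied to `m / n`), symmetric otherwise.  So each is
   `≤ 2 N^k |B f| |B g|`, total `≤ 2 N^k (Σ_f |B f|)^2 = 2 N^k (Σ_{p∈S} |b p|)^(2k)
   ≤ 2 N^k (|S| Σ b p^2)^k ≤ 2 N^k N^k (Σ b p^2)^k ≤ 2 (T2 - T1) (Σ b p^2)^k`
   (Cauchy-Schwarz `sq_sum_le_card_mul_sum_sq`; `|S| ≤ N` because `S ⊆ Finset.Icc 1 N`;
   `N^(2k) ≤ T2 - T1`).
 The case `k = 0` is included (then `1 ≤ T2 - T1` and the integral is `T2 - T1`).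
(2) `|Σ b p cos (t log p)| = |re D t| ≤ ‖D t‖` and `x^(2k)` is monotone in `|x|`.
-/

open MeasureTheory Set Filter Topology
open scoped Real Interval ContDiff

namespace Pool.Agent.H98.GP

open Pool.Agent.H6

/-- The integral of a cosine. -/
theorem Mb_cos (T1 T2 w : ℝ) (hw : w ≠ 0) : |∫ t in T1..T2, Real.cos (t * w)| ≤ 2 / |w| := by
  have h : ∫ t in T1..T2, Real.cos (t * w) = (Real.sin (T2 * w) - Real.sin (T1 * w)) / w := by
    rw [intervalIntegral.integral_comp_mul_right (fun x => Real.cos x) hw, integral_cos, smul_eq_mul]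
    field_simp
  rw [h, abs_div]
  refine div_le_div_of_nonneg_right ?_ (abs_nonneg w)
  have h1 := Real.abs_sin_le_one (T2 * w)
  have h2 := Real.abs_sin_le_one (T1 * w)
  have h3 := abs_sub (Real.sin (T2 * w)) (Real.sin (T1 * w))
  linarith

/-- Square of the norm of an exponential sum. -/
theorem Mb_norm_sq {ι : Type} (I : Finset ι) (B L : ι → ℝ) (t : ℝ) :
    ‖∑ f ∈ I, (B f : ℂ) * Complex.exp (-((t * L f : ℝ) : ℂ) * Complex.I)‖ ^ 2 =
      ∑ f ∈ I, ∑ g ∈ I, B f * B g * Real.cos (t * (L f - L g)) := by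
  have hre : (∑ f ∈ I, (B f : ℂ) * Complex.exp (-((t * L f : ℝ) : ℂ) * Complex.I)).re =
      ∑ f ∈ I, B f * Real.cos (t * L f) := by
    rw [Complex.re_sum]
    refine Finset.sum_congr rfl fun f _ => ?_
    have : -((t * L f : ℝ) : ℂ) = ((-(t * L f) : ℝ) : ℂ) := by push_cast; ring
    rw [this, Complex.re_ofReal_mul, Complex.exp_ofReal_mul_I_re, Real.cos_neg]
  have him : (∑ f ∈ I, (B f : ℂ) * Complex.exp (-((t * L f : ℝ) : ℂ) * Complex.I)).im =
      -∑ f ∈ I, B f * Real.sin (t * L f) := by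
    rw [Complex.im_sum, ← Finset.sum_neg_distrib]
    refine Finset.sum_congr rfl fun f _ => ?_
    have : -((t * L f : ℝ) : ℂ) = ((-(t * L f) : ℝ) : ℂ) := by push_cast; ring
    rw [this, Complex.im_ofReal_mul, Complex.exp_ofReal_mul_I_im, Real.sin_neg]
    ring
  rw [Complex.sq_norm, Complex.normSq_apply, hre, him, Finset.sum_mul_sum, neg_mul_neg,
    Finset.sum_mul_sum, ← Finset.sum_add_distrib]
  refine Finset.sum_congr rfl fun f _ => ?_
  rw [← Finset.sum_add_distrib]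
  refine Finset.sum_congr rfl fun g _ => ?_
  rw [mul_sub, Real.cos_sub]
  ring

/-- The mean square of an exponential sum with separated frequencies. -/
theorem Mb_core {ι : Type} (I : Finset ι) (B L : ι → ℝ) {T1 T2 M : ℝ} (_hT : T1 ≤ T2)
    (h : ∀ f ∈ I, ∀ g ∈ I, L f ≠ L g → 1 ≤ M * |L f - L g|) :
    ∫ t in T1..T2, ‖∑ f ∈ I, (B f : ℂ) * Complex.exp (-((t * L f : ℝ) : ℂ) * Complex.I)‖ ^ 2 ≤
      (T2 - T1) * (∑ f ∈ I, ∑ g ∈ I.filter (fun g => L g = L f), B f * B g) +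
        2 * |M| * (∑ f ∈ I, |B f|) ^ 2 := by
  classical
  have hcont : ∀ f g : ι, Continuous fun t : ℝ => B f * B g * Real.cos (t * (L f - L g)) := by
    intro f g
    fun_prop
  have e1 : ∫ t in T1..T2, ‖∑ f ∈ I, (B f : ℂ) * Complex.exp (-((t * L f : ℝ) : ℂ) * Complex.I)‖ ^ 2 =
      ∑ f ∈ I, ∑ g ∈ I, ∫ t in T1..T2, B f * B g * Real.cos (t * (L f - L g)) := by
    simp only [Mb_norm_sq]
    rw [intervalIntegral.integral_finsetSum]
    · refine Finset.sum_congr rfl fun f _ => ?_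
      rw [intervalIntegral.integral_finsetSum]
      intro g _
      exact (hcont f g).intervalIntegrable _ _
    · intro f _
      exact (continuous_finsetSum _ fun g _ => hcont f g).intervalIntegrable _ _
  rw [e1]
  have e2 : (T2 - T1) * (∑ f ∈ I, ∑ g ∈ I.filter (fun g => L g = L f), B f * B g) =
      ∑ f ∈ I, ∑ g ∈ I, (if L g = L f then (T2 - T1) * (B f * B g) else 0) := by
    rw [Finset.mul_sum]
    refine Finset.sum_congr rfl fun f _ => ?_
    rw [Finset.mul_sum, Finset.sum_filter]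
  have e3 : 2 * |M| * (∑ f ∈ I, |B f|) ^ 2 = ∑ f ∈ I, ∑ g ∈ I, 2 * |M| * (|B f| * |B g|) := by
    rw [sq, Finset.sum_mul_sum, Finset.mul_sum]
    refine Finset.sum_congr rfl fun f _ => ?_
    rw [Finset.mul_sum]
  rw [e2, e3, ← Finset.sum_add_distrib]
  refine Finset.sum_le_sum fun f hf => ?_
  rw [← Finset.sum_add_distrib]
  refine Finset.sum_le_sum fun g hg => ?_
  rw [intervalIntegral.integral_const_mul]
  by_cases hfg : L g = L f
  · rw [if_pos hfg]
    have : ∫ t in T1..T2, Real.cos (t * (L f - L g)) = T2 - T1 := by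
      simp [hfg]
    rw [this]
    have h5 : 0 ≤ 2 * |M| * (|B f| * |B g|) := by positivity
    nlinarith
  · rw [if_neg hfg, zero_add]
    have hne : L f ≠ L g := fun hh => hfg hh.symm
    have hw : L f - L g ≠ 0 := sub_ne_zero.mpr hne
    have hpos : 0 < |L f - L g| := abs_pos.mpr hw
    have h1 := h f hf g hg hne
    have h2 := Mb_cos T1 T2 (L f - L g) hw
    have h3 : 2 / |L f - L g| ≤ 2 * |M| := by
      rw [div_le_iff₀ hpos]
      have : M * |L f - L g| ≤ |M| * |L f - L g| := mul_le_mul_of_nonneg_right (le_abs_self M) hpos.le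
      linarith
    calc B f * B g * ∫ t in T1..T2, Real.cos (t * (L f - L g))
        ≤ |B f * B g * ∫ t in T1..T2, Real.cos (t * (L f - L g))| := le_abs_self _
      _ = |B f| * |B g| * |∫ t in T1..T2, Real.cos (t * (L f - L g))| := by rw [abs_mul, abs_mul]
      _ ≤ |B f| * |B g| * (2 * |M|) := by
          refine mul_le_mul_of_nonneg_left (le_trans h2 h3) (by positivity)
      _ = 2 * |M| * (|B f| * |B g|) := by ring

/-- Expansion of the `k`-th power of a sum. -/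
theorem Mb_pow {R : Type} [CommSemiring R] (k : ℕ) (S : Finset ℕ) (x : ℕ → R) :
    (∑ p ∈ S, x p) ^ k = ∑ f ∈ Fintype.piFinset (fun _ : Fin k => S), ∏ i, x (f i) := by
  rw [← Finset.prod_univ_sum (fun _ : Fin k => S) (fun _ p => x p), Finset.prod_const,
    Finset.card_univ, Fintype.card_fin]

/-- Separation of logarithms of natural numbers. -/
theorem Mb_sep {m n N : ℕ} (hm : 1 ≤ m) (hn : 1 ≤ n) (hmN : m ≤ N) (hnN : n ≤ N)
    (h : Real.log m ≠ Real.log n) : 1 ≤ (N : ℝ) * |Real.log m - Real.log n| := by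
  have key : ∀ m n : ℕ, 1 ≤ m → 1 ≤ n → m ≤ N → n < m → 1 ≤ (N : ℝ) * |Real.log m - Real.log n| := by
    intro m n hm hn hmN hlt
    have hm0 : (0 : ℝ) < m := by exact_mod_cast hm
    have hn0 : (0 : ℝ) < n := by exact_mod_cast hn
    have h1 := Real.one_sub_inv_le_log_of_pos (div_pos hm0 hn0)
    rw [Real.log_div hm0.ne' hn0.ne', inv_div] at h1
    have h2 : (n : ℝ) + 1 ≤ m := by exact_mod_cast hlt
    have h3 : 1 / (m : ℝ) ≤ 1 - n / m := by
      rw [le_sub_iff_add_le, ← add_div, div_le_one hm0]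
      linarith
    have h4 : 1 / (m : ℝ) ≤ |Real.log m - Real.log n| := le_trans (h3.trans h1) (le_abs_self _)
    have h5 : (m : ℝ) ≤ N := by exact_mod_cast hmN
    calc (1 : ℝ) = m * (1 / m) := by field_simp
      _ ≤ N * |Real.log m - Real.log n| := mul_le_mul h5 h4 (by positivity) (by positivity)
  rcases lt_trichotomy m n with h1 | h1 | h1
  · rw [abs_sub_comm]
    exact key n m hn hm hnN h1
  · exact absurd (by rw [h1]) h
  · exact key m n hm hn hmN h1

/-- (1) The `2k`-th moment of a prime polynomial of length `N` with `N^(2k) ≤ T2 - T1`. -/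
theorem prime_moment (k : ℕ) (S : Finset ℕ) (hS : ∀ p ∈ S, p.Prime) (N : ℕ) (hN : ∀ p ∈ S, p ≤ N)
    (b : ℕ → ℝ) {T1 T2 : ℝ} (hN2 : (N : ℝ) ^ (2 * k) ≤ T2 - T1) :
    ∫ t in T1..T2, ‖∑ p ∈ S, (b p : ℂ) * Complex.exp (-((t * Real.log p : ℝ) : ℂ) * Complex.I)‖ ^ (2 * k)
      ≤ (k.factorial + 2) * (T2 - T1) * (∑ p ∈ S, b p ^ 2) ^ k := by
  classical
  have hT0 : 0 ≤ T2 - T1 := le_trans (by positivity) hN2
  have hT : T1 ≤ T2 := by linarith
  set I : Finset (Fin k → ℕ) := Fintype.piFinset (fun _ : Fin k => S) with hI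
  set B : (Fin k → ℕ) → ℝ := fun f => ∏ i, b (f i) with hB
  set L : (Fin k → ℕ) → ℝ := fun f => Real.log ((∏ i, f i : ℕ) : ℝ) with hL
  have hmem : ∀ f ∈ I, ∀ i, f i ∈ S := fun f hf i => (Fintype.mem_piFinset.mp hf) i
  have hpos : ∀ f ∈ I, 1 ≤ ∏ i, f i := by
    intro f hf
    exact Nat.one_le_iff_ne_zero.mpr (Finset.prod_ne_zero_iff.mpr fun i _ => (hS _ (hmem f hf i)).ne_zero)
  have hle : ∀ f ∈ I, ∏ i, f i ≤ N ^ k := by
    intro f hf
    calc ∏ i, f i ≤ ∏ _i : Fin k, N := Finset.prod_le_prod' fun i _ => hN _ (hmem f hf i)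
      _ = N ^ k := by rw [Finset.prod_const, Finset.card_univ, Fintype.card_fin]
  have hinj : ∀ f ∈ I, ∀ g ∈ I, L g = L f → ∏ i, g i = ∏ i, f i := by
    intro f hf g hg h
    have h1 : (0 : ℝ) < ((∏ i, g i : ℕ) : ℝ) := by exact_mod_cast hpos g hg
    have h2 : (0 : ℝ) < ((∏ i, f i : ℕ) : ℝ) := by exact_mod_cast hpos f hf
    have h3 := Real.log_injOn_pos (Set.mem_Ioi.mpr h1) (Set.mem_Ioi.mpr h2) h
    exact_mod_cast h3
  have hexp : ∀ t : ℝ, ‖∑ p ∈ S, (b p : ℂ) * Complex.exp (-((t * Real.log p : ℝ) : ℂ) * Complex.I)‖ ^ (2 * k) =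
      ‖∑ f ∈ I, (B f : ℂ) * Complex.exp (-((t * L f : ℝ) : ℂ) * Complex.I)‖ ^ 2 := by
    intro t
    rw [mul_comm 2 k, pow_mul, ← norm_pow, Mb_pow]
    congr 2
    refine Finset.sum_congr rfl fun f hf => ?_
    rw [Finset.prod_mul_distrib, ← Complex.exp_sum]
    have e1 : ∏ i, (b (f i) : ℂ) = ((B f : ℝ) : ℂ) := by
      rw [hB]
      push_cast
      rfl
    have e2 : ∑ i, -((t * Real.log (f i) : ℝ) : ℂ) * Complex.I = -((t * L f : ℝ) : ℂ) * Complex.I := by
      rw [← Finset.sum_mul, Finset.sum_neg_distrib, ← Complex.ofReal_sum, ← Finset.mul_sum]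
      congr 3
      rw [hL]
      simp only [Nat.cast_prod]
      rw [Real.log_prod]
      intro i _
      exact Nat.cast_ne_zero.mpr (hS _ (hmem f hf i)).ne_zero
    rw [e1, e2]
  simp only [hexp]
  have hcore := Mb_core I B L (M := ((N ^ k : ℕ) : ℝ)) hT (by
    intro f hf g hg hne
    exact Mb_sep (hpos f hf) (hpos g hg) (hle f hf) (hle g hg) hne)
  refine le_trans hcore ?_
  have hsq : ∑ f ∈ I, B f ^ 2 = (∑ p ∈ S, b p ^ 2) ^ k := by
    rw [Mb_pow]
    refine Finset.sum_congr rfl fun f _ => ?_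
    rw [hB, Finset.prod_pow]
  have habs : ∑ f ∈ I, |B f| = (∑ p ∈ S, |b p|) ^ k := by
    rw [Mb_pow]
    refine Finset.sum_congr rfl fun f _ => ?_
    rw [hB, Finset.abs_prod]
  have hdiag : ∑ f ∈ I, ∑ g ∈ I.filter (fun g => L g = L f), B f * B g ≤
      k.factorial * (∑ p ∈ S, b p ^ 2) ^ k := by
    rw [← hsq, Finset.mul_sum]
    refine Finset.sum_le_sum fun f hf => ?_
    have h1 : ∑ g ∈ I.filter (fun g => L g = L f), B f * B g =
        ∑ g ∈ I.filter (fun g => L g = L f), B f ^ 2 := by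
      refine Finset.sum_congr rfl fun g hg => ?_
      obtain ⟨hg1, hg2⟩ := Finset.mem_filter.mp hg
      have h2 : B g = B f := prod_eq_of_same k g f (fun i => hS _ (hmem g hg1 i))
        (fun i => hS _ (hmem f hf i)) (hinj f hf g hg1 hg2) b
      rw [h2, sq]
    rw [h1, Finset.sum_const, nsmul_eq_mul]
    refine mul_le_mul_of_nonneg_right ?_ (sq_nonneg _)
    have h3 : (I.filter (fun g => L g = L f)).card ≤ k.factorial := by
      refine le_trans (Finset.card_le_card ?_) (card_same_prod k S hS f (hmem f hf))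
      intro g hg
      obtain ⟨hg1, hg2⟩ := Finset.mem_filter.mp hg
      exact Finset.mem_filter.mpr ⟨hg1, hinj f hf g hg1 hg2⟩
    exact_mod_cast h3
  have hcard : (S.card : ℝ) ≤ N := by
    have h1 : S ⊆ Finset.Icc 1 N := by
      intro p hp
      exact Finset.mem_Icc.mpr ⟨(hS p hp).one_lt.le, hN p hp⟩
    have h2 := Finset.card_le_card h1
    rw [Nat.card_Icc, Nat.add_sub_cancel] at h2
    exact_mod_cast h2
  have hss : 0 ≤ ∑ p ∈ S, b p ^ 2 := Finset.sum_nonneg fun p _ => sq_nonneg _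
  have hoff : 2 * |((N ^ k : ℕ) : ℝ)| * (∑ f ∈ I, |B f|) ^ 2 ≤
      2 * (T2 - T1) * (∑ p ∈ S, b p ^ 2) ^ k := by
    rw [habs]
    have h1 : (∑ p ∈ S, |b p|) ^ 2 ≤ N * ∑ p ∈ S, b p ^ 2 := by
      have h2 := sq_sum_le_card_mul_sum_sq (s := S) (f := fun p => |b p|)
      simp only [sq_abs] at h2
      exact le_trans h2 (mul_le_mul_of_nonneg_right hcard hss)
    have h3 : ((∑ p ∈ S, |b p|) ^ k) ^ 2 ≤ (N : ℝ) ^ k * (∑ p ∈ S, b p ^ 2) ^ k := by
      rw [← pow_mul, mul_comm k 2, pow_mul, ← mul_pow]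
      exact pow_le_pow_left₀ (sq_nonneg _) h1 k
    have h4 : |((N ^ k : ℕ) : ℝ)| = (N : ℝ) ^ k := by
      rw [abs_of_nonneg (Nat.cast_nonneg _)]
      push_cast
      rfl
    rw [h4]
    calc 2 * (N : ℝ) ^ k * ((∑ p ∈ S, |b p|) ^ k) ^ 2
        ≤ 2 * (N : ℝ) ^ k * ((N : ℝ) ^ k * (∑ p ∈ S, b p ^ 2) ^ k) :=
          mul_le_mul_of_nonneg_left h3 (by positivity)
      _ = 2 * (N : ℝ) ^ (2 * k) * (∑ p ∈ S, b p ^ 2) ^ k := by
          rw [two_mul k, pow_add]
          ring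
      _ ≤ 2 * (T2 - T1) * (∑ p ∈ S, b p ^ 2) ^ k := by
          refine mul_le_mul_of_nonneg_right ?_ (pow_nonneg hss k)
          linarith
  have hd2 := mul_le_mul_of_nonneg_left hdiag hT0
  calc (T2 - T1) * (∑ f ∈ I, ∑ g ∈ I.filter (fun g => L g = L f), B f * B g) +
        2 * |((N ^ k : ℕ) : ℝ)| * (∑ f ∈ I, |B f|) ^ 2
      ≤ (T2 - T1) * (k.factorial * (∑ p ∈ S, b p ^ 2) ^ k) +
        2 * (T2 - T1) * (∑ p ∈ S, b p ^ 2) ^ k := add_le_add hd2 hoff
    _ = (k.factorial + 2) * (T2 - T1) * (∑ p ∈ S, b p ^ 2) ^ k := by ring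

/-- (2) The same for the cosine sum. -/
theorem prime_moment_cos (k : ℕ) (S : Finset ℕ) (hS : ∀ p ∈ S, p.Prime) (N : ℕ) (hN : ∀ p ∈ S, p ≤ N)
    (b : ℕ → ℝ) {T1 T2 : ℝ} (hT : T1 ≤ T2) (hN2 : (N : ℝ) ^ (2 * k) ≤ T2 - T1) :
    ∫ t in T1..T2, (∑ p ∈ S, b p * Real.cos (t * Real.log p)) ^ (2 * k)
      ≤ (k.factorial + 2) * (T2 - T1) * (∑ p ∈ S, b p ^ 2) ^ k := by
  refine le_trans ?_ (prime_moment k S hS N hN b hN2)
  refine intervalIntegral.integral_mono_on hT ?_ ?_ ?_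
  · refine Continuous.intervalIntegrable ?_ _ _
    fun_prop
  · refine Continuous.intervalIntegrable ?_ _ _
    fun_prop
  · intro t _
    have hre : (∑ p ∈ S, (b p : ℂ) * Complex.exp (-((t * Real.log p : ℝ) : ℂ) * Complex.I)).re =
        ∑ p ∈ S, b p * Real.cos (t * Real.log p) := by
      rw [Complex.re_sum]
      refine Finset.sum_congr rfl fun f _ => ?_
      have : -((t * Real.log f : ℝ) : ℂ) = ((-(t * Real.log f) : ℝ) : ℂ) := by push_cast; ring
      rw [this, Complex.re_ofReal_mul, Complex.exp_ofReal_mul_I_re, Real.cos_neg]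
    rw [← hre, pow_mul, pow_mul]
    refine pow_le_pow_left₀ (sq_nonneg _) ?_ k
    have h1 := Complex.abs_re_le_norm (∑ p ∈ S, (b p : ℂ) * Complex.exp (-((t * Real.log p : ℝ) : ℂ) * Complex.I))
    calc _ = |(∑ p ∈ S, (b p : ℂ) * Complex.exp (-((t * Real.log p : ℝ) : ℂ) * Complex.I)).re| ^ 2 := (sq_abs _).symm
      _ ≤ _ := pow_le_pow_left₀ (abs_nonneg _) h1 2

end Pool.Agent.H98.GP
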