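import Mathlib
import Pool.Agent.H98.GP.D
import Pool.Agent.H98.GP.Mb
import Pool.Agent.H98.GP.Mc

/-!
# MP_103a5c_GP, block M, row Md: moments of WW of small band

PROOF.  By `WW_sub_prime`, `|WW φ L t| ≤ |P t| + C1` with `P t = Σ_{p ∈ PS s L} (2/L bb φ L p) cos (t log p)`,
`L = log T ≥ 1`.  So `WW^(2k) ≤ 2^(2k) (P^(2k) + C1^(2k))` (`(x + y)^n ≤ 2^n max(x,y)^n ≤ 2^n (x^n + y^n)` for
`x, y ≥ 0`; Mathlib: `add_pow_le` / `add_pow_le_pow_mul_pow_of_sq_le_sq` or by cases).  Integrate over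
`[cT, CT]` (length `(C - c) T`, all functions continuous: `continuous_WW`, `fun_prop`).
`∫ P^(2k)` is bounded by `prime_moment_cos` with `S = PS s L`, `N = ⌊exp (s L)⌋₊ ≤ T^s` (`floor_exp_le`, file CT):
the hypothesis `N^(2k) ≤ T^(2 k s) ≤ (C - c) T` holds eventually since `2 k s < 1`
(`tendsto_rpow_neg_atTop` or `isLittleO_rpow_rpow`), and `Σ coefficients^2 ≤ B` by `sum_coeff_sq` (compose with
`Real.tendsto_log_atTop`).  So `∫ WW^(2k) ≤ 2^(2k) ((k! + 2) (C - c) T B^k + C1^(2k) (C - c) T)`.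
-/

open MeasureTheory Set Filter Topology
open scoped Real Interval ContDiff

namespace Pool.Agent.H98.GP

open Pool.Agent.H6

private lemma Md_pt {x p C : ℝ} (hC : 0 ≤ C) (h : |x - p| ≤ C) (k : ℕ) :
    x ^ (2 * k) ≤ 2 ^ (2 * k) * (p ^ (2 * k) + C ^ (2 * k)) := by
  have h1 : |x| ≤ |p| + C := by
    have h2 := abs_add_le (x - p) p
    rw [sub_add_cancel] at h2
    linarith
  have hp : 0 ≤ |p| := abs_nonneg p
  have h2 : |x| ≤ 2 * max |p| C := by
    have := le_max_left |p| C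
    have := le_max_right |p| C
    linarith
  have h3 : x ^ (2 * k) = |x| ^ (2 * k) := (Even.pow_abs (even_two_mul k) x).symm
  have h4 : p ^ (2 * k) = |p| ^ (2 * k) := (Even.pow_abs (even_two_mul k) p).symm
  rw [h3, h4]
  refine (pow_le_pow_left₀ (abs_nonneg x) h2 _).trans ?_
  rw [mul_pow]
  refine mul_le_mul_of_nonneg_left ?_ (by positivity)
  rcases max_choice |p| C with h5 | h5
  · rw [h5]
    have : 0 ≤ C ^ (2 * k) := pow_nonneg hC _
    linarith
  · rw [h5]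
    have : 0 ≤ |p| ^ (2 * k) := pow_nonneg hp _
    linarith

theorem WW_moment (P : PrimeInput) {s : ℝ} {φ : ℝ → ℝ} (hφ : TestFn s φ) (hs : 0 < s) (k : ℕ)
    (hk : 2 * (k : ℝ) * s < 1) (c C : ℝ) (hc : 0 < c) (hcC : c < C) :
    ∃ K : ℝ, ∀ᶠ T in atTop, ∫ t in (c * T)..(C * T), (WW φ (Real.log T) t) ^ (2 * k) ≤ K * T := by
  obtain ⟨C1, hC1, h1⟩ := WW_sub_prime hφ hs
  obtain ⟨B, hB, h2⟩ := sum_coeff_sq P hφ
  have hCc : 0 < C - c := by linarith
  refine ⟨2 ^ (2 * k) * ((k.factorial + 2) * (C - c) * B ^ k + C1 ^ (2 * k) * (C - c)), ?_⟩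
  have h3 : ∀ᶠ T : ℝ in atTop, T ^ (2 * (k : ℝ) * s) ≤ (C - c) * T := by
    have h4 : ∀ᶠ T : ℝ in atTop, T ^ (-(1 - 2 * (k : ℝ) * s)) < C - c :=
      (tendsto_rpow_neg_atTop (by linarith : 0 < 1 - 2 * (k : ℝ) * s)).eventually_lt_const hCc
    filter_upwards [h4, eventually_gt_atTop 0] with T hT hT0
    have h5 : T ^ (2 * (k : ℝ) * s) = T ^ (-(1 - 2 * (k : ℝ) * s)) * T := by
      nth_rewrite 3 [← Real.rpow_one T]
      rw [← Real.rpow_add hT0]
      congr 1
      ring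
    rw [h5]
    exact mul_le_mul_of_nonneg_right hT.le hT0.le
  filter_upwards [h3, Real.tendsto_log_atTop.eventually h2, eventually_ge_atTop (Real.exp 1),
    eventually_gt_atTop 0] with T hT hT2 hT3 hT0
  have hL : 1 ≤ Real.log T := by
    rw [← Real.log_exp 1]
    exact Real.log_le_log (Real.exp_pos 1) hT3
  set L := Real.log T with hLdef
  have hcC' : c * T ≤ C * T := mul_le_mul_of_nonneg_right hcC.le hT0.le
  have hlen : C * T - c * T = (C - c) * T := by ring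
  have hS : ∀ p ∈ PS s L, p.Prime := fun p hp => (Finset.mem_filter.1 hp).2
  have hN : ∀ p ∈ PS s L, p ≤ ⌊Real.exp (s * L)⌋₊ := fun p hp =>
    (Finset.mem_Icc.1 (Finset.mem_filter.1 hp).1).2
  have hN2 : ((⌊Real.exp (s * L)⌋₊ : ℕ) : ℝ) ^ (2 * k) ≤ C * T - c * T := by
    rw [hlen]
    refine le_trans ?_ hT
    have h4 : ((⌊Real.exp (s * L)⌋₊ : ℕ) : ℝ) ≤ T ^ s := floor_exp_le hT0
    refine (pow_le_pow_left₀ (Nat.cast_nonneg _) h4 _).trans (le_of_eq ?_)
    rw [← Real.rpow_natCast, ← Real.rpow_mul hT0.le]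
    congr 1
    push_cast
    ring
  have h5 := prime_moment_cos k (PS s L) hS _ hN (fun p => 2 / L * bb φ L p) hcC' hN2
  have hcP : Continuous (fun t : ℝ => (∑ p ∈ PS s L,
      (2 / L * bb φ L p) * Real.cos (t * Real.log p)) ^ (2 * k)) := by
    fun_prop
  have hcW : Continuous (fun t : ℝ => (WW φ L t) ^ (2 * k)) :=
    (continuous_WW hφ (by linarith)).pow _
  have h6 : ∫ t in (c * T)..(C * T), (WW φ L t) ^ (2 * k) ≤
      ∫ t in (c * T)..(C * T), 2 ^ (2 * k) * ((∑ p ∈ PS s L,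
        (2 / L * bb φ L p) * Real.cos (t * Real.log p)) ^ (2 * k) + C1 ^ (2 * k)) := by
    refine intervalIntegral.integral_mono_on hcC' (hcW.intervalIntegrable _ _)
      (((hcP.add continuous_const).const_mul _).intervalIntegrable _ _) ?_
    intro t _
    exact Md_pt hC1 (h1 L hL t) k
  refine h6.trans ?_
  rw [intervalIntegral.integral_const_mul, intervalIntegral.integral_add
    (hcP.intervalIntegrable _ _) (continuous_const.intervalIntegrable _ _),
    intervalIntegral.integral_const, smul_eq_mul, hlen]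
  rw [hlen] at h5
  have h7 : (∑ p ∈ PS s L, (2 / L * bb φ L p) ^ 2) ^ k ≤ B ^ k :=
    pow_le_pow_left₀ (Finset.sum_nonneg fun _ _ => sq_nonneg _) hT2 k
  have h8 : ((k.factorial : ℝ) + 2) * ((C - c) * T) * (∑ p ∈ PS s L, (2 / L * bb φ L p) ^ 2) ^ k ≤
      ((k.factorial : ℝ) + 2) * ((C - c) * T) * B ^ k :=
    mul_le_mul_of_nonneg_left h7 (by positivity)
  have h9 := h5.trans h8
  have h10 : (2 : ℝ) ^ (2 * k) * ((∫ t in (c * T)..(C * T), (∑ p ∈ PS s L,
        (2 / L * bb φ L p) * Real.cos (t * Real.log p)) ^ (2 * k)) + (C - c) * T * C1 ^ (2 * k)) ≤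
      2 ^ (2 * k) * (((k.factorial : ℝ) + 2) * ((C - c) * T) * B ^ k +
        (C - c) * T * C1 ^ (2 * k)) :=
    mul_le_mul_of_nonneg_left (by linarith) (by positivity)
  refine h10.trans (le_of_eq ?_)
  ring

end Pool.Agent.H98.GP
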