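import Mathlib
import Pool.Agent.H98.GP.D

/-!
# MP_103a5c_GP, block M, row Me: the explicit formula uniformly on [cT, CT]

PROOF.  By `Inputs.exists_a` choose `a > 1/2` with `2 a s < 1`, and `A` with `hP : PoissonInput γ w a A`
from `I.poisson a`.  For `L = log T ≥ 1`: `hP.SS_eq hφ hs hL t : SS γ w φ L t = (∫ u, q φ a L u * A (t - u)) - WW φ L t`.
`TestFn.abs_conv_sub_le hφ hs hP.a_pos hP.cont hAb hC2` (used exactly in this way in `PoissonInput.exists_delta`,
file Assembly; copy the derivation of `hAb` there) gives `K` with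
`|(∫ u, q φ a L u * A (t - u)) - (2/L) cosT φ 0 A t| ≤ K exp (a L s) / (1 + |t|)^(1/2) ≤ K T^(a s) (c T)^(-1/2)`
for `t ≥ cT`, which tends to 0 because `a s < 1/2`.  And for `t ∈ [cT, CT]`, with `C1` from `hP.arch1`:
`|(2/L) A t - 1| ≤ (2/L) (|A t - (1/2) log (1 + |t|)| + (1/2) |log (1 + t) - log T|) ≤ (2/L) (C1 + (1/2) M)`,
where `log (1 + t) - log T = log ((1 + t)/T)` lies between `log c` and `log (C + 1)` for `T ≥ 1`, so `M = |log c| + |log (C + 1)|`;
this tends to 0 as well.  Sum up: `|SS - (cosT φ 0 - WW)| ≤ K T^(a s - 1/2) c^(-1/2) + |cosT φ 0| (2/L) (C1 + M/2) ≤ ε` eventually.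
(2) is (1) with `ε = 1` and the triangle inequality.
-/

open MeasureTheory Set Filter Topology
open scoped Real Interval ContDiff

namespace Pool.Agent.H98.GP

open Pool.Agent.H6

variable {ι : Type*} [Countable ι] {γ w : ι → ℝ} {F : ℝ → Finset ι} {CR : ℝ}

private lemma Me_arch {A : ℝ → ℝ} {C1 : ℝ} (hC1 : ∀ t, |A t - (1 / 2) * Real.log (1 + |t|)| ≤ C1)
    {c C T t : ℝ} (hc : 0 < c) (hcC : c < C) (hT : 1 ≤ T) (hL : 1 ≤ Real.log T)
    (ht : t ∈ Icc (c * T) (C * T)) :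
    |(2 / Real.log T) * A t - 1| ≤
      (2 / Real.log T) * (C1 + (1 / 2) * (|Real.log c| + |Real.log (C + 1)|)) := by
  have hT0 : 0 < T := by linarith
  have hL0 : 0 < Real.log T := by linarith
  have ht0 : 0 < t := lt_of_lt_of_le (mul_pos hc hT0) ht.1
  have hC0 : 0 < C := hc.trans hcC
  have h1 := hC1 t
  rw [abs_of_pos ht0] at h1
  have h2 : Real.log c + Real.log T ≤ Real.log (1 + t) := by
    rw [← Real.log_mul hc.ne' hT0.ne']
    apply Real.log_le_log (by positivity)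
    linarith [ht.1]
  have h3 : Real.log (1 + t) ≤ Real.log (C + 1) + Real.log T := by
    rw [← Real.log_mul (by positivity) hT0.ne']
    apply Real.log_le_log (by positivity)
    nlinarith [ht.2]
  have h4 : |Real.log (1 + t) - Real.log T| ≤ |Real.log c| + |Real.log (C + 1)| := by
    rw [abs_le]
    constructor
    · linarith [neg_abs_le (Real.log c), abs_nonneg (Real.log (C + 1))]
    · linarith [le_abs_self (Real.log (C + 1)), abs_nonneg (Real.log c)]
  have e : (2 / Real.log T) * A t - 1 = (2 / Real.log T) * ((A t - (1 / 2) * Real.log (1 + t))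
      + (1 / 2) * (Real.log (1 + t) - Real.log T)) := by
    field_simp
    ring
  rw [e, abs_mul, abs_of_pos (by positivity : 0 < 2 / Real.log T)]
  apply mul_le_mul_of_nonneg_left _ (by positivity)
  refine (abs_add_le _ _).trans (add_le_add h1 ?_)
  rw [abs_mul, abs_of_pos (by norm_num : (0 : ℝ) < 1 / 2)]
  exact mul_le_mul_of_nonneg_left h4 (by norm_num)

private lemma Me_pow {K c T t a s : ℝ} (hK : 0 ≤ K) (hc : 0 < c) (hT : 0 < T) (ht : c * T ≤ t) :
    K * Real.exp (a * Real.log T * s) / (1 + |t|) ^ (1 / 2 : ℝ) ≤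
      (K / c ^ (1 / 2 : ℝ)) * Real.exp (-((1 / 2 - a * s) * Real.log T)) := by
  have ht0 : 0 < t := lt_of_lt_of_le (mul_pos hc hT) ht
  rw [abs_of_pos ht0]
  have h1 : c ^ (1 / 2 : ℝ) * Real.exp (1 / 2 * Real.log T) ≤ (1 + t) ^ (1 / 2 : ℝ) := by
    have e : Real.exp (1 / 2 * Real.log T) = T ^ (1 / 2 : ℝ) := by
      rw [Real.rpow_def_of_pos hT, mul_comm]
    rw [e, ← Real.mul_rpow hc.le hT.le]
    apply Real.rpow_le_rpow (by positivity) _ (by norm_num)
    linarith
  have h2 : Real.exp (a * Real.log T * s) =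
      Real.exp (1 / 2 * Real.log T) * Real.exp (-((1 / 2 - a * s) * Real.log T)) := by
    rw [← Real.exp_add]
    congr 1
    ring
  have hc2 : 0 < c ^ (1 / 2 : ℝ) := by positivity
  calc K * Real.exp (a * Real.log T * s) / (1 + t) ^ (1 / 2 : ℝ)
      ≤ K * Real.exp (a * Real.log T * s) / (c ^ (1 / 2 : ℝ) * Real.exp (1 / 2 * Real.log T)) := by
        apply div_le_div_of_nonneg_left (by positivity) (by positivity) h1
    _ = _ := by
        rw [h2]
        have h3 := (Real.exp_pos (1 / 2 * Real.log T)).ne'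
        field_simp

private lemma Me_tendsto (x y : ℝ) {δ : ℝ} (hδ : 0 < δ) :
    Tendsto (fun T => x * Real.exp (-(δ * Real.log T)) + (2 / Real.log T) * y) atTop (𝓝 0) := by
  have hlog := Real.tendsto_log_atTop
  have h1 : Tendsto (fun T => Real.exp (-(δ * Real.log T))) atTop (𝓝 0) :=
    Real.tendsto_exp_neg_atTop_nhds_zero.comp (hlog.const_mul_atTop hδ)
  have h2 : Tendsto (fun T => 2 / Real.log T) atTop (𝓝 0) := hlog.const_div_atTop 2
  have h3 := (h1.const_mul x).add (h2.mul_const y)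
  simpa using h3

/-- (1) The explicit formula, uniformly for `t ∈ [cT, CT]`. -/
theorem delta_unif (I : Inputs γ w F CR) {s : ℝ} {φ : ℝ → ℝ} (hφ : TestFn s φ) (hs : 0 < s) (hs1 : s < 1)
    {c C : ℝ} (hc : 0 < c) (hcC : c < C) {ε : ℝ} (hε : 0 < ε) :
    ∀ᶠ T in atTop, ∀ t ∈ Icc (c * T) (C * T),
      |SS γ w φ (Real.log T) t - (cosT φ 0 - WW φ (Real.log T) t)| ≤ ε := by
  obtain ⟨a, ha, has⟩ := Inputs.exists_a hs hs1
  obtain ⟨A, hP⟩ := I.poisson a ha
  obtain ⟨C', hC0', hC'⟩ := hP.bound_A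
  obtain ⟨C1, hC1⟩ := hP.arch1
  obtain ⟨C2, hC2⟩ := hP.arch2
  have hAb : ∀ t, |A t| ≤ C' * (1 + |t|) ^ (1 / 2 : ℝ) := fun t =>
    (hC' t).trans (mul_le_mul_of_nonneg_left (PoissonInput.rpow_quarter_le_half t) hC0')
  obtain ⟨K, hK0, hK⟩ := hφ.abs_conv_sub_le hs hP.a_pos hP.cont hAb hC2
  have hδ : 0 < 1 / 2 - a * s := by linarith
  have hg := Me_tendsto (K / c ^ (1 / 2 : ℝ))
    (|cosT φ 0| * (C1 + (1 / 2) * (|Real.log c| + |Real.log (C + 1)|))) hδ
  filter_upwards [hg.eventually (gt_mem_nhds hε), eventually_ge_atTop 1,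
    Real.tendsto_log_atTop.eventually_ge_atTop 1] with T h1 hT hL t ht
  have hT0 : 0 < T := by linarith
  rw [hP.SS_eq hφ hs hL]
  have e : (∫ u, TestFn.q φ a (Real.log T) u * A (t - u)) - WW φ (Real.log T) t -
      (cosT φ 0 - WW φ (Real.log T) t) = ((∫ u, TestFn.q φ a (Real.log T) u * A (t - u))
      - (2 / Real.log T) * cosT φ 0 * A t) + cosT φ 0 * ((2 / Real.log T) * A t - 1) := by ring
  rw [e]
  have h2 := (hK (Real.log T) hL t).trans (Me_pow hK0 hc hT0 ht.1)
  have h3 := Me_arch hC1 hc hcC hT hL ht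
  refine (abs_add_le _ _).trans ((add_le_add h2 ?_).trans h1.le)
  rw [abs_mul]
  refine (mul_le_mul_of_nonneg_left h3 (abs_nonneg _)).trans (le_of_eq ?_)
  ring

/-- (2) -/
theorem SS_le_WW (I : Inputs γ w F CR) {s : ℝ} {φ : ℝ → ℝ} (hφ : TestFn s φ) (hs : 0 < s) (hs1 : s < 1)
    {c C : ℝ} (hc : 0 < c) (hcC : c < C) :
    ∀ᶠ T in atTop, ∀ t ∈ Icc (c * T) (C * T),
      |SS γ w φ (Real.log T) t| ≤ |WW φ (Real.log T) t| + (|cosT φ 0| + 1) ∧
      |WW φ (Real.log T) t| ≤ |SS γ w φ (Real.log T) t| + (|cosT φ 0| + 1) := by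
  filter_upwards [delta_unif I hφ hs hs1 hc hcC one_pos] with T h t ht
  have h1 := abs_le.1 (h t ht)
  have h2 := neg_abs_le (cosT φ 0)
  have h3 := le_abs_self (cosT φ 0)
  constructor
  · rw [abs_le]
    have h4 := neg_abs_le (WW φ (Real.log T) t)
    have h5 := le_abs_self (WW φ (Real.log T) t)
    constructor <;> linarith [h1.1, h1.2]
  · rw [abs_le]
    have h4 := neg_abs_le (SS γ w φ (Real.log T) t)
    have h5 := le_abs_self (SS γ w φ (Real.log T) t)
    constructor <;> linarith [h1.1, h1.2]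

end Pool.Agent.H98.GP
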