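import Mathlib
import Pool.Agent.H98.GP.D

/-!
# MP_103a5c_GP, block M, row Mf: scaled majorants of small band, continuity of SS

PROOF of (1).  `cosT (fun u => f (r u)) ξ = (1/r) cosT f (ξ/r)` for `r > 0` (change of variables,
`MeasureTheory.Measure.integral_comp_mul_left`), `r = 2η`.  From `testFn_Maj : TestFn (1/2) Maj`: continuity, evenness
clear; support: `η ≤ |ξ|` gives `1/2 ≤ |ξ/(2η)|`; decay: with `C` for `Maj`,
`Maj (2ηu) ≤ C / (1 + (2ηu)^2)^2 ≤ C / ((2η)^4 (1 + u^2)^2)` since `(2η)^2 (1 + u^2) ≤ 1 + (2ηu)^2` (as `2η ≤ 1`).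
PROOF of (2).  `Maj_ge (2ηu) : (1/2048) / (1 + (2ηu)^2)^2 ≤ Maj (2ηu)` and `(2ηu)^2 ≤ u^2`.
PROOF of (3).  Continuity at `t0`: on the neighbourhood `|t - t0| < 1` the terms are continuous in `t` and bounded:
`|w i φ (L (t - γ i)/(2π))| ≤ w i D / (1 + (t - γ i)^2)` (`decay_scale'`, file Edges) `≤ 3 D w i / (1 + (t0 - γ i)^2)`
because `1 + (t0 - γ)^2 ≤ 1 + 2 (t - γ)^2 + 2 (t0 - t)^2 ≤ 3 (1 + (t - γ)^2)`; the last is summable (`O.summable t0`).
Use `continuousOn_tsum` on the open ball and `ContinuousOn.continuousAt`.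
PROOF of (4).  `ph0` satisfies the decay hypothesis with constant 1; termwise comparison with `Summable.tsum_le_tsum`
(`O.summable_phi` for both functions, `.of_abs`; `w i ≥ 0`).
-/

open MeasureTheory Set Filter Topology
open scoped Real Interval ContDiff

namespace Pool.Agent.H98.GP

open Pool.Agent.H6

/-- Scaling of the cosine transform. -/
theorem Mf_cosT_scale (f : ℝ → ℝ) {r : ℝ} (hr : 0 < r) (ξ : ℝ) :
    cosT (fun u => f (r * u)) ξ = r⁻¹ * cosT f (ξ / r) := by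
  unfold cosT
  have h := MeasureTheory.Measure.integral_comp_mul_left
    (fun v : ℝ => f v * Real.cos (2 * π * v * (ξ / r))) r
  have h2 : (fun u : ℝ => f (r * u) * Real.cos (2 * π * u * ξ)) =
      fun u => (fun v : ℝ => f v * Real.cos (2 * π * v * (ξ / r))) (r * u) := by
    ext u
    have h3 : 2 * π * (r * u) * (ξ / r) = 2 * π * u * ξ := by field_simp
    simp only [h3]
  rw [h2, h, abs_of_pos (inv_pos.2 hr), smul_eq_mul]

theorem Mf_ph0_abs (u : ℝ) : |ph0 u| ≤ 1 / (1 + u ^ 2) ^ 2 := by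
  unfold ph0
  rw [abs_of_nonneg (by positivity)]

theorem Mf_ph0_nonneg (u : ℝ) : 0 ≤ ph0 u := by
  unfold ph0
  positivity

/-- (1) -/
theorem testFn_MajS {η : ℝ} (h0 : 0 < η) (h1 : η ≤ 1 / 2) : TestFn η (MajS η) := by
  obtain ⟨C, hC0, hC⟩ := testFn_Maj.decay
  have hr : 0 < 2 * η := by positivity
  refine ⟨?_, ?_, ⟨C / (2 * η) ^ 4, by positivity, ?_⟩, ?_⟩
  · exact testFn_Maj.cont.comp (continuous_const.mul continuous_id)
  · intro u
    change Maj (2 * η * -u) = Maj (2 * η * u)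
    rw [mul_neg, testFn_Maj.even]
  · intro u
    change |Maj (2 * η * u)| ≤ _
    refine (hC _).trans ?_
    rw [div_div]
    apply div_le_div_of_nonneg_left hC0 (by positivity)
    have h3 : (2 * η) ^ 2 ≤ 1 := by
      have h4 : 2 * η ≤ 1 := by linarith
      exact pow_le_one₀ hr.le h4
    have h2 : (2 * η) ^ 2 * (1 + u ^ 2) ≤ 1 + (2 * η * u) ^ 2 := by
      rw [mul_pow (2 * η) u 2]
      linarith
    calc (2 * η) ^ 4 * (1 + u ^ 2) ^ 2 = ((2 * η) ^ 2 * (1 + u ^ 2)) ^ 2 := by ring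
      _ ≤ _ := pow_le_pow_left₀ (by positivity) h2 2
  · intro ξ hξ
    have h2 : cosT (MajS η) ξ = (2 * η)⁻¹ * cosT Maj (ξ / (2 * η)) := Mf_cosT_scale Maj hr ξ
    rw [h2, testFn_Maj.supp, mul_zero]
    rw [abs_div, abs_of_pos hr, le_div_iff₀ hr]
    linarith

/-- (2) -/
theorem ph0_le_MajS {η : ℝ} (h0 : 0 < η) (h1 : η ≤ 1 / 2) (u : ℝ) : ph0 u ≤ 2048 * MajS η u := by
  unfold ph0 MajS
  have h2 := Maj_ge (2 * η * u)
  have h3 : (2 * η) ^ 2 ≤ 1 := by
    have h4 : 2 * η ≤ 1 := by linarith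
    exact pow_le_one₀ (by positivity) h4
  have h5 : (2 * η * u) ^ 2 ≤ u ^ 2 := by
    rw [mul_pow (2 * η) u 2]
    have h6 := mul_le_mul_of_nonneg_right h3 (sq_nonneg u)
    linarith
  have h7 : 1 / (1 + u ^ 2) ^ 2 ≤ 1 / (1 + (2 * η * u) ^ 2) ^ 2 := by
    apply div_le_div_of_nonneg_left zero_le_one (by positivity)
    exact pow_le_pow_left₀ (by positivity) (by linarith) 2
  have h8 : 1 / (1 + (2 * η * u) ^ 2) ^ 2 =
      2048 * ((1 / 2048) / (1 + (2 * η * u) ^ 2) ^ 2) := by ring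
  calc 1 / (1 + u ^ 2) ^ 2 ≤ 2048 * ((1 / 2048) / (1 + (2 * η * u) ^ 2) ^ 2) := by
        rw [← h8]
        exact h7
    _ ≤ 2048 * Maj (2 * η * u) := by linarith

section
variable {ι : Type*} {γ w : ι → ℝ} {F : ℝ → Finset ι} {CR : ℝ}

/-- (3) -/
theorem continuous_SS_decay (O : Ordinates ι γ w F CR) {φ : ℝ → ℝ} (hc : Continuous φ) {D : ℝ} (hD : 0 ≤ D)
    (hφ : ∀ u, |φ u| ≤ D / (1 + u ^ 2) ^ 2) {L : ℝ} (hL : 2 * π ≤ L) : Continuous (SS γ w φ L) := by
  rw [continuous_iff_continuousAt]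
  intro t0
  have hball : Metric.ball t0 1 ∈ 𝓝 t0 := Metric.ball_mem_nhds t0 one_pos
  refine ContinuousOn.continuousAt ?_ hball
  unfold SS
  refine continuousOn_tsum (u := fun i => 3 * D * (w i / (1 + (t0 - γ i) ^ 2))) ?_ ?_ ?_
  · intro i
    refine Continuous.continuousOn ?_
    exact continuous_const.mul (hc.comp (by fun_prop))
  · exact (O.summable t0).mul_left (3 * D)
  · intro i t ht
    rw [Real.norm_eq_abs, abs_mul, abs_of_nonneg (O.w_nonneg i)]
    have h1 := decay_scale' hD hφ hL (t - γ i)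
    have ht' : |t - t0| < 1 := by
      rw [← Real.dist_eq]
      exact Metric.mem_ball.1 ht
    have h2 : (t0 - t) ^ 2 ≤ 1 := by
      rw [← sq_abs, abs_sub_comm]
      exact pow_le_one₀ (abs_nonneg _) ht'.le
    have h3 : 1 + (t0 - γ i) ^ 2 ≤ 3 * (1 + (t - γ i) ^ 2) := by
      have h4 : (t0 - γ i) ^ 2 ≤ 2 * (t - γ i) ^ 2 + 2 * (t0 - t) ^ 2 := by
        have h5 := sq_nonneg ((t - γ i) - (t0 - t))
        have h6 : (t0 - γ i) ^ 2 + ((t - γ i) - (t0 - t)) ^ 2 =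
            2 * (t - γ i) ^ 2 + 2 * (t0 - t) ^ 2 := by ring
        linarith
      have h7 := sq_nonneg (t - γ i)
      linarith
    have hp1 : 0 < 1 + (t0 - γ i) ^ 2 := by positivity
    have hp2 : 0 < 1 + (t - γ i) ^ 2 := by positivity
    have h8 : D / (1 + (t - γ i) ^ 2) ≤ 3 * D / (1 + (t0 - γ i) ^ 2) := by
      rw [div_le_div_iff₀ hp2 hp1]
      have h9 := mul_le_mul_of_nonneg_left h3 hD
      linarith
    calc w i * |φ (L * (t - γ i) / (2 * π))| ≤ w i * (3 * D / (1 + (t0 - γ i) ^ 2)) :=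
          mul_le_mul_of_nonneg_left (h1.trans h8) (O.w_nonneg i)
      _ = 3 * D * (w i / (1 + (t0 - γ i) ^ 2)) := by ring

/-- (4) -/
theorem abs_SS_le_ph0 (O : Ordinates ι γ w F CR) {φ : ℝ → ℝ} {D : ℝ} (hD : 0 ≤ D)
    (hφ : ∀ u, |φ u| ≤ D / (1 + u ^ 2) ^ 2) {L : ℝ} (hL : 2 * π ≤ L) (t : ℝ) :
    |SS γ w φ L t| ≤ D * SS γ w ph0 L t := by
  have hs := O.summable_phi hD hφ hL t
  have hs0 := (O.summable_phi zero_le_one Mf_ph0_abs hL t).of_abs
  calc |SS γ w φ L t| ≤ ∑' i, |w i * φ (L * (t - γ i) / (2 * π))| := by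
        unfold SS
        have h := norm_tsum_le_tsum_norm (f := fun i => w i * φ (L * (t - γ i) / (2 * π)))
          (by simpa [Real.norm_eq_abs] using hs)
        simpa [Real.norm_eq_abs] using h
    _ ≤ ∑' i, D * (w i * ph0 (L * (t - γ i) / (2 * π))) := by
        refine Summable.tsum_le_tsum ?_ hs (hs0.mul_left D)
        intro i
        rw [abs_mul, abs_of_nonneg (O.w_nonneg i)]
        have h1 := hφ (L * (t - γ i) / (2 * π))
        calc w i * |φ (L * (t - γ i) / (2 * π))| ≤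
            w i * (D / (1 + (L * (t - γ i) / (2 * π)) ^ 2) ^ 2) :=
              mul_le_mul_of_nonneg_left h1 (O.w_nonneg i)
          _ = D * (w i * ph0 (L * (t - γ i) / (2 * π))) := by
              unfold ph0
              ring
    _ = D * SS γ w ph0 L t := by
        rw [tsum_mul_left]
        rfl

/-- (5) `SS ph0` is nonnegative and bounded by `2048 SS (MajS η)`. -/
theorem SS_ph0_le (O : Ordinates ι γ w F CR) {η : ℝ} (h0 : 0 < η) (h1 : η ≤ 1 / 2) {L : ℝ} (hL : 2 * π ≤ L) (t : ℝ) :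
    0 ≤ SS γ w ph0 L t ∧ SS γ w ph0 L t ≤ 2048 * SS γ w (MajS η) L t := by
  have hs0 := (O.summable_phi zero_le_one Mf_ph0_abs hL t).of_abs
  refine ⟨tsum_nonneg fun i => mul_nonneg (O.w_nonneg i) (Mf_ph0_nonneg _), ?_⟩
  obtain ⟨C, hC0, hC⟩ := (testFn_MajS h0 h1).decay
  have hs1 := (O.summable_phi hC0 hC hL t).of_abs
  unfold SS
  rw [← tsum_mul_left]
  refine Summable.tsum_le_tsum ?_ hs0 (hs1.mul_left 2048)
  intro i
  have h2 := mul_le_mul_of_nonneg_left (ph0_le_MajS h0 h1 (L * (t - γ i) / (2 * π))) (O.w_nonneg i)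
  linarith

end

end Pool.Agent.H98.GP
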