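import Mathlib
import Pool.Agent.H98.GP.D

/-!
# MP_103a5c_GP, block M, row Mn: closure properties of `Mom`

All functions involved are eventually continuous in `t`, so all integrals over `[cT, CT]` (with `T > 0`, hence
`cT ≤ CT`) may be compared by `intervalIntegral.integral_mono_on` (`Continuous.intervalIntegrable`).
`F ^ (2 k) = |F| ^ (2 k) ≥ 0` (`Even.pow_abs`, `Even.pow_nonneg`, `even_two_mul`).
(1) `|F|^(2k) ≤ A^(2k) (|G| + 1)^(2k) ≤ A^(2k) 2^(2k) (G^(2k) + 1)`; so `K_F = (2A)^(2k) (K_G + (C - c))`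
    (enlarge `A` to be nonnegative: at a point `|F| ≤ A (|G| + 1)` and `|F| ≤ |A| (|G| + 1)`).
(2) constant: `(C - c) a^(2k) T`.
(3) sum: `|F + G| ≤ |F| + |G|`, `(x + y)^(2k) ≤ 2^(2k) (x^(2k) + y^(2k))`.
(4) product: `(F G)^(2k) = F^(2k) G^(2k) ≤ F^(4k) + G^(4k)` (from `x y ≤ x^2 + y^2`), `4k = 2 (2k)`: use the bounds of `F`
    and `G` with `2k` in place of `k`.
(5) shift by `x / log T`: `∫_{cT}^{CT} F(t + h)^(2k) dt = ∫_{cT + h}^{CT + h} F^(2k)` (`intervalIntegral.integral_comp_add_right`),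
    and for `T` large `|h| ≤ |x| ≤ (c/2) T` and so `[cT + h, CT + h] ⊆ [(c/2) T, (C + c) T]`; monotonicity in the interval for
    nonnegative integrands (`intervalIntegral.integral_mono_interval`).
(6) finite sums: `Finset.induction_on`, (3), (2) with `a = 0`.
(7) from (4), induction, (2) with `a = 1` for `n = 0`.
(8) `k = m` in `bdd`; an odd or arbitrary power `|F|^n ≤ F^(2n) + 1`.
-/

open MeasureTheory Set Filter Topology
open scoped Real Interval ContDiff

namespace Pool.Agent.H98.GP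

variable {F G : ℝ → ℝ → ℝ}

theorem Mn_two {F G H : ℝ → ℝ → ℝ} (hF : Mom F) (hG : Mom G) (hH : ∀ᶠ T in atTop, Continuous (H T))
    (B : ℝ) (hB : 0 ≤ B) (m n : ℕ) {c C : ℝ} (hc : 0 < c) (hcC : c < C)
    (h : ∀ᶠ T in atTop, ∀ t ∈ Icc (c * T) (C * T), H T t ≤ B * (F T t ^ (2 * m) + G T t ^ (2 * n))) :
    ∃ K : ℝ, ∀ᶠ T in atTop, ∫ t in (c * T)..(C * T), H T t ≤ K * T := by
  obtain ⟨K1, hK1⟩ := hF.bdd m c C hc hcC
  obtain ⟨K2, hK2⟩ := hG.bdd n c C hc hcC
  refine ⟨B * (K1 + K2), ?_⟩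
  filter_upwards [hK1, hK2, hF.cont, hG.cont, hH, h, eventually_gt_atTop 0] with T h1 h2 hFc hGc hHc hle hT
  have hab : c * T ≤ C * T := by nlinarith
  have hi1 : IntervalIntegrable (fun t => F T t ^ (2 * m)) volume (c * T) (C * T) :=
    (hFc.pow _).intervalIntegrable _ _
  have hi2 : IntervalIntegrable (fun t => G T t ^ (2 * n)) volume (c * T) (C * T) :=
    (hGc.pow _).intervalIntegrable _ _
  calc ∫ t in (c * T)..(C * T), H T t
      ≤ ∫ t in (c * T)..(C * T), B * (F T t ^ (2 * m) + G T t ^ (2 * n)) :=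
        intervalIntegral.integral_mono_on hab (hHc.intervalIntegrable _ _)
          ((hi1.add hi2).const_mul B) hle
    _ = B * ((∫ t in (c * T)..(C * T), F T t ^ (2 * m)) + ∫ t in (c * T)..(C * T), G T t ^ (2 * n)) := by
        rw [intervalIntegral.integral_const_mul, intervalIntegral.integral_add hi1 hi2]
    _ ≤ B * (K1 * T + K2 * T) := by
        apply mul_le_mul_of_nonneg_left _ hB
        linarith
    _ = B * (K1 + K2) * T := by ring

theorem Mn_add_pow {x y : ℝ} (hx : 0 ≤ x) (hy : 0 ≤ y) (n : ℕ) :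
    (x + y) ^ n ≤ 2 ^ n * (x ^ n + y ^ n) := by
  have hxn : 0 ≤ x ^ n := pow_nonneg hx n
  have hyn : 0 ≤ y ^ n := pow_nonneg hy n
  have h2n : (0 : ℝ) ≤ 2 ^ n := by positivity
  rcases le_total x y with hxy | hxy
  · calc (x + y) ^ n ≤ (2 * y) ^ n := pow_le_pow_left₀ (by linarith) (by linarith) n
      _ = 2 ^ n * y ^ n := mul_pow _ _ _
      _ ≤ 2 ^ n * (x ^ n + y ^ n) := mul_le_mul_of_nonneg_left (by linarith) h2n
  · calc (x + y) ^ n ≤ (2 * x) ^ n := pow_le_pow_left₀ (by linarith) (by linarith) n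
      _ = 2 ^ n * x ^ n := mul_pow _ _ _
      _ ≤ 2 ^ n * (x ^ n + y ^ n) := mul_le_mul_of_nonneg_left (by linarith) h2n

theorem Mn_abs (x : ℝ) (k : ℕ) : |x| ^ (2 * k) = x ^ (2 * k) := (even_two_mul k).pow_abs x

theorem Mn_const (a : ℝ) : Mom (fun _ _ => a) := by
  refine ⟨Eventually.of_forall fun T => continuous_const, fun k c C hc hcC => ⟨(C - c) * a ^ (2 * k), ?_⟩⟩
  refine Eventually.of_forall fun T => ?_
  rw [intervalIntegral.integral_const, smul_eq_mul]
  apply le_of_eq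
  ring

/-- (1) -/
theorem Mom.of_le (hF : ∀ᶠ T in atTop, Continuous (F T)) (hG : Mom G)
    (h : ∀ c C : ℝ, 0 < c → c < C → ∃ A : ℝ, ∀ᶠ T in atTop, ∀ t ∈ Icc (c * T) (C * T), |F T t| ≤ A * (|G T t| + 1)) :
    Mom F := by
  refine ⟨hF, fun k c C hc hcC => ?_⟩
  obtain ⟨A, hA⟩ := h c C hc hcC
  apply Mn_two hG (Mn_const 1) (m := k) (n := 0) (hH := ?_) (B := |A| ^ (2 * k) * 2 ^ (2 * k)) (hB := by positivity)
    (hc := hc) (hcC := hcC)
  · filter_upwards [hA] with T hT t ht
    have h1 : |F T t| ≤ |A| * (|G T t| + 1) :=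
      (hT t ht).trans (mul_le_mul_of_nonneg_right (le_abs_self A) (by positivity))
    calc F T t ^ (2 * k) = |F T t| ^ (2 * k) := (Mn_abs _ _).symm
      _ ≤ (|A| * (|G T t| + 1)) ^ (2 * k) := pow_le_pow_left₀ (abs_nonneg _) h1 _
      _ = |A| ^ (2 * k) * (|G T t| + 1) ^ (2 * k) := mul_pow _ _ _
      _ ≤ |A| ^ (2 * k) * (2 ^ (2 * k) * (|G T t| ^ (2 * k) + 1 ^ (2 * k))) :=
          mul_le_mul_of_nonneg_left (Mn_add_pow (abs_nonneg _) zero_le_one _) (by positivity)
      _ = |A| ^ (2 * k) * 2 ^ (2 * k) * (G T t ^ (2 * k) + 1 ^ (2 * 0)) := by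
          rw [Mn_abs (G T t), one_pow, one_pow]; ring
  · filter_upwards [hF] with T hT
    exact hT.pow _

/-- (2) -/
theorem Mom.const (a : ℝ) : Mom (fun _ _ => a) := by
  exact Mn_const a

/-- (3) -/
theorem Mom.add (hF : Mom F) (hG : Mom G) : Mom (fun T t => F T t + G T t) := by
  have hc' : ∀ᶠ T in atTop, Continuous (fun t => F T t + G T t) := by
    filter_upwards [hF.cont, hG.cont] with T h1 h2
    exact h1.add h2
  refine ⟨hc', fun k c C hc hcC => ?_⟩
  apply Mn_two hF hG (m := k) (n := k) (hH := ?_) (B := 2 ^ (2 * k)) (hB := by positivity)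
    (hc := hc) (hcC := hcC)
  · refine Eventually.of_forall fun T t _ => ?_
    calc (F T t + G T t) ^ (2 * k) = |F T t + G T t| ^ (2 * k) := (Mn_abs _ _).symm
      _ ≤ (|F T t| + |G T t|) ^ (2 * k) := pow_le_pow_left₀ (abs_nonneg _) (abs_add_le _ _) _
      _ ≤ 2 ^ (2 * k) * (|F T t| ^ (2 * k) + |G T t| ^ (2 * k)) :=
          Mn_add_pow (abs_nonneg _) (abs_nonneg _) _
      _ = 2 ^ (2 * k) * (F T t ^ (2 * k) + G T t ^ (2 * k)) := by rw [Mn_abs, Mn_abs]
  · filter_upwards [hc'] with T hT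
    exact hT.pow _

/-- (4) -/
theorem Mom.mul (hF : Mom F) (hG : Mom G) : Mom (fun T t => F T t * G T t) := by
  have hc' : ∀ᶠ T in atTop, Continuous (fun t => F T t * G T t) := by
    filter_upwards [hF.cont, hG.cont] with T h1 h2
    exact h1.mul h2
  refine ⟨hc', fun k c C hc hcC => ?_⟩
  apply Mn_two hF hG (m := 2 * k) (n := 2 * k) (hH := ?_) (B := 1) (hB := zero_le_one)
    (hc := hc) (hcC := hcC)
  · refine Eventually.of_forall fun T t _ => ?_
    have e1 : F T t ^ (2 * (2 * k)) = (F T t ^ (2 * k)) ^ 2 := by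
      rw [← pow_mul]; congr 1; ring
    have e2 : G T t ^ (2 * (2 * k)) = (G T t ^ (2 * k)) ^ 2 := by
      rw [← pow_mul]; congr 1; ring
    rw [mul_pow, one_mul, e1, e2]
    nlinarith [sq_nonneg (F T t ^ (2 * k) - G T t ^ (2 * k)), sq_nonneg (F T t ^ (2 * k)),
      sq_nonneg (G T t ^ (2 * k))]
  · filter_upwards [hc'] with T hT
    exact hT.pow _

/-- (4') -/
theorem Mom.const_mul (a : ℝ) (hF : Mom F) : Mom (fun T t => a * F T t) := by
  exact (Mn_const a).mul hF

/-- (5) -/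
theorem Mom.shift (x : ℝ) (hF : Mom F) : Mom (fun T t => F T (t + x / Real.log T)) := by
  refine ⟨?_, fun k c C hc hcC => ?_⟩
  · filter_upwards [hF.cont] with T hT
    exact hT.comp (continuous_id.add continuous_const)
  · obtain ⟨K, hK⟩ := hF.bdd k (c / 2) (C + c) (by positivity) (by linarith)
    refine ⟨K, ?_⟩
    filter_upwards [hK, hF.cont, eventually_ge_atTop (Real.exp 1), eventually_ge_atTop (2 * |x| / c)]
      with T hT hTc hTe hTx
    have hT0 : 0 < T := lt_of_lt_of_le (Real.exp_pos 1) hTe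
    have hlog : 1 ≤ Real.log T := by
      rw [← Real.log_exp 1]
      exact Real.log_le_log (Real.exp_pos 1) hTe
    have hh : |x / Real.log T| ≤ |x| := by
      rw [abs_div, abs_of_pos (by linarith : 0 < Real.log T)]
      exact div_le_self (abs_nonneg _) hlog
    have hx2 : |x| ≤ c / 2 * T := by
      rw [div_le_iff₀ hc] at hTx
      linarith
    have hb := abs_le.1 (hh.trans hx2)
    have hcomp : ∫ t in (c * T)..(C * T), F T (t + x / Real.log T) ^ (2 * k)
        = ∫ t in (c * T + x / Real.log T)..(C * T + x / Real.log T), F T t ^ (2 * k) :=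
      intervalIntegral.integral_comp_add_right (fun t => F T t ^ (2 * k)) (x / Real.log T)
    rw [hcomp]
    refine le_trans (intervalIntegral.integral_mono_interval (c := c / 2 * T) (d := (C + c) * T)
      ?_ ?_ ?_ ?_ ?_) hT
    · linarith [hb.1]
    · nlinarith
    · nlinarith [hb.2]
    · exact Eventually.of_forall fun t => (even_two_mul k).pow_nonneg _
    · exact (hTc.pow _).intervalIntegrable _ _

/-- (6) -/
theorem Mom.sum {ι : Type*} (S : Finset ι) {H : ι → ℝ → ℝ → ℝ} (hH : ∀ i ∈ S, Mom (H i)) :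
    Mom (fun T t => ∑ i ∈ S, H i T t) := by
  classical
  induction S using Finset.induction_on with
  | empty => simpa using Mn_const 0
  | insert a S ha ih =>
    have h1 : Mom (fun T t => H a T t + ∑ i ∈ S, H i T t) :=
      (hH a (Finset.mem_insert_self a S)).add (ih fun i hi => hH i (Finset.mem_insert_of_mem hi))
    simpa only [Finset.sum_insert ha] using h1

/-- (7) -/
theorem Mom.pow (hF : Mom F) (n : ℕ) : Mom (fun T t => F T t ^ n) := by
  induction n with
  | zero => simpa using Mn_const 1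
  | succ n ih => simpa only [pow_succ] using ih.mul hF

/-- (8) -/
theorem Mom.abs_pow (hF : Mom F) (n : ℕ) {c C : ℝ} (hc : 0 < c) (hcC : c < C) :
    ∃ K : ℝ, ∀ᶠ T in atTop, ∫ t in (c * T)..(C * T), |F T t| ^ n ≤ K * T := by
  apply Mn_two hF (Mn_const 1) (m := n) (n := 0) (hH := ?_) (B := 1) (hB := zero_le_one)
    (hc := hc) (hcC := hcC)
  · refine Eventually.of_forall fun T t _ => ?_
    have h1 : F T t ^ (2 * n) = (|F T t| ^ n) ^ 2 := by
      rw [← Mn_abs, mul_comm 2 n, pow_mul]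
    rw [h1]
    simp only [mul_zero, pow_zero, one_mul]
    nlinarith [sq_nonneg (|F T t| ^ n - 1), pow_nonneg (abs_nonneg (F T t)) n]
  · filter_upwards [hF.cont] with T hT
    exact (hT.abs).pow _

end Pool.Agent.H98.GP
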