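import Mathlib
import Pool.Agent.H98.GP.D
import Pool.Agent.H98.GP.Md
import Pool.Agent.H98.GP.Me
import Pool.Agent.H98.GP.Mf
import Pool.Agent.H98.GP.Mn

/-!
# MP_103a5c_GP, block M, row Mg: all moments of linear statistics of the zeros

PROOF of (1).  Continuity: `continuous_SS_decay` with `φ = ph0`, `D = 1`, for `log T ≥ 2π`.
Moments: given `k, c, C`, let `η = 1/(4 (k + 1))`, so `0 < η ≤ 1/4 ≤ 1/2` and `2 k η < 1`, `η < 1`.
By `SS_ph0_le`: `0 ≤ SS ph0 ≤ 2048 SS (MajS η)`; by `SS_le_WW` (1st half, `φ = MajS η`, `testFn_MajS`) on `[cT, CT]`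
`|SS (MajS η)| ≤ |WW (MajS η)| + B`, `B = |cosT (MajS η) 0| + 1`.  Hence
`(SS ph0)^(2k) ≤ 2048^(2k) 2^(2k) (WW^(2k) + B^(2k))`, integrate (both sides continuous in `t`: `continuous_WW`) and use
`WW_moment I.prime (testFn_MajS ..) ..` with this `k`.
PROOF of (2).  `Mom.of_le` with `G = SS ph0` and `abs_SS_le_ph0` (`|SS φ| ≤ D SS ph0 ≤ D (|SS ph0| + 1)`); continuity again
from `continuous_SS_decay`.
PROOF of (3).  `TestFn s φ` gives `hφ.decay`, `hφ.cont`; so (2) applies; then on `[cT, CT]`, 2nd half of `SS_le_WW`,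
`|WW φ| ≤ |SS φ| + B ≤ (B + 1) (|SS φ| + 1)`, and `Mom.of_le` (continuity of `WW`: `continuous_WW hφ`, `log T > 0`).
-/

/-!
# MP_103a5c_GP, block M, row Mg: all moments of linear statistics of the zeros

PROOF of (1).  Continuity: `continuous_SS_decay` with `φ = ph0`, `D = 1`, for `log T ≥ 2π`.
Moments: given `k, c, C`, let `η = 1/(4 (k + 1))`, so `0 < η ≤ 1/4 ≤ 1/2` and `2 k η < 1`, `η < 1`.
By `SS_ph0_le`: `0 ≤ SS ph0 ≤ 2048 SS (MajS η)`; by `SS_le_WW` (1st half, `φ = MajS η`, `testFn_MajS`) on `[cT, CT]`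
`|SS (MajS η)| ≤ |WW (MajS η)| + B`, `B = |cosT (MajS η) 0| + 1`.  Hence
`(SS ph0)^(2k) ≤ 2048^(2k) 2^(2k) (WW^(2k) + B^(2k))`, integrate (both sides continuous in `t`: `continuous_WW`) and use
`WW_moment I.prime (testFn_MajS ..) ..` with this `k`.
PROOF of (2).  `Mom.of_le` with `G = SS ph0` and `abs_SS_le_ph0` (`|SS φ| ≤ D SS ph0 ≤ D (|SS ph0| + 1)`); continuity again
from `continuous_SS_decay`.
PROOF of (3).  `TestFn s φ` gives `hφ.decay`, `hφ.cont`; so (2) applies; then on `[cT, CT]`, 2nd half of `SS_le_WW`,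
`|WW φ| ≤ |SS φ| + B ≤ (B + 1) (|SS φ| + 1)`, and `Mom.of_le` (continuity of `WW`: `continuous_WW hφ`, `log T > 0`).
-/

open MeasureTheory Set Filter Topology
open scoped Real Interval ContDiff

namespace Pool.Agent.H98.GP

open Pool.Agent.H6

variable {ι : Type*} [Countable ι] {γ w : ι → ℝ} {F : ℝ → Finset ι} {CR : ℝ}

theorem Mg_add_pow {x y : ℝ} (hx : 0 ≤ x) (hy : 0 ≤ y) (n : ℕ) :
    (x + y) ^ n ≤ 2 ^ n * (x ^ n + y ^ n) := by
  rcases le_total x y with h | h
  · have h1 : (x + y) ^ n ≤ (2 * y) ^ n := pow_le_pow_left₀ (by linarith) (by linarith) n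
    have h2 : 0 ≤ (2 : ℝ) ^ n * x ^ n := by positivity
    calc (x + y) ^ n ≤ 2 ^ n * y ^ n := by rwa [mul_pow] at h1
      _ ≤ 2 ^ n * (x ^ n + y ^ n) := by rw [mul_add]; linarith
  · have h1 : (x + y) ^ n ≤ (2 * x) ^ n := pow_le_pow_left₀ (by linarith) (by linarith) n
    have h2 : 0 ≤ (2 : ℝ) ^ n * y ^ n := by positivity
    calc (x + y) ^ n ≤ 2 ^ n * x ^ n := by rwa [mul_pow] at h1
      _ ≤ 2 ^ n * (x ^ n + y ^ n) := by rw [mul_add]; linarith

theorem Mg_ph0_cont : Continuous ph0 := by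
  have h : ph0 = fun u : ℝ => 1 / (1 + u ^ 2) ^ 2 := by
    funext u
    rfl
  rw [h]
  refine continuous_const.div ((continuous_const.add (continuous_id.pow 2)).pow 2) fun u => ?_
  have h1 : 0 < 1 + u ^ 2 := by positivity
  exact (pow_pos h1 2).ne'

theorem Mg_ph0_abs (u : ℝ) : |ph0 u| ≤ 1 / (1 + u ^ 2) ^ 2 := by
  have h : ph0 u = 1 / (1 + u ^ 2) ^ 2 := rfl
  rw [h, abs_of_nonneg (by positivity)]

/-- (1) -/
theorem mom_SS_ph0 (I : Inputs γ w F CR) : Mom (fun T t => SS γ w ph0 (Real.log T) t) := by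
  refine ⟨?_, ?_⟩
  · filter_upwards [Real.tendsto_log_atTop.eventually_ge_atTop (2 * π)] with T hL
    exact continuous_SS_decay I.ord Mg_ph0_cont zero_le_one Mg_ph0_abs hL
  · intro k c C hc hcC
    obtain ⟨η, hη⟩ : ∃ η : ℝ, η = 1 / (4 * ((k : ℝ) + 1)) := ⟨_, rfl⟩
    have hk0 : (0 : ℝ) ≤ k := Nat.cast_nonneg k
    have hk1 : (0 : ℝ) < 4 * ((k : ℝ) + 1) := by positivity
    have hη0 : 0 < η := by
      rw [hη]
      positivity
    have hη4 : η ≤ 1 / 4 := by
      rw [hη]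
      apply one_div_le_one_div_of_le (by norm_num)
      linarith
    have hη1 : η ≤ 1 / 2 := by linarith
    have hη2 : η < 1 := by linarith
    have h2k : 2 * (k : ℝ) * η < 1 := by
      rw [hη, mul_one_div, div_lt_one hk1]
      linarith
    have hφ : TestFn η (MajS η) := testFn_MajS hη0 hη1
    obtain ⟨K, hK⟩ := WW_moment I.prime hφ hη0 k h2k c C hc hcC
    obtain ⟨B, hB⟩ : ∃ B : ℝ, B = |cosT (MajS η) 0| + 1 := ⟨_, rfl⟩
    have hB0 : 0 ≤ B := by
      rw [hB]
      positivity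
    refine ⟨2048 ^ (2 * k) * 2 ^ (2 * k) * (K + (C - c) * B ^ (2 * k)), ?_⟩
    filter_upwards [hK, SS_le_WW I hφ hη0 hη2 hc hcC,
      Real.tendsto_log_atTop.eventually_ge_atTop (2 * π), eventually_ge_atTop 1]
      with T h1 h2 hL hT
    have hT0 : 0 < T := by linarith
    have hab : c * T ≤ C * T := mul_le_mul_of_nonneg_right hcC.le hT0.le
    have hπ := Real.pi_pos
    have hL0 : 0 < Real.log T := lt_of_lt_of_le (by positivity) hL
    have hWc : Continuous (WW (MajS η) (Real.log T)) := continuous_WW hφ hL0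
    have hSc : Continuous (SS γ w ph0 (Real.log T)) :=
      continuous_SS_decay I.ord Mg_ph0_cont zero_le_one Mg_ph0_abs hL
    have hpt : ∀ t ∈ Icc (c * T) (C * T), (SS γ w ph0 (Real.log T) t) ^ (2 * k) ≤
        2048 ^ (2 * k) * 2 ^ (2 * k) * ((WW (MajS η) (Real.log T) t) ^ (2 * k) + B ^ (2 * k)) := by
      intro t ht
      obtain ⟨s0, s1⟩ := SS_ph0_le I.ord hη0 hη1 hL t
      have s2 := (h2 t ht).1
      rw [← hB] at s2
      have s3 : SS γ w ph0 (Real.log T) t ≤ 2048 * (|WW (MajS η) (Real.log T) t| + B) := by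
        have := le_abs_self (SS γ w (MajS η) (Real.log T) t)
        linarith
      calc (SS γ w ph0 (Real.log T) t) ^ (2 * k) ≤
            (2048 * (|WW (MajS η) (Real.log T) t| + B)) ^ (2 * k) := pow_le_pow_left₀ s0 s3 _
        _ = 2048 ^ (2 * k) * (|WW (MajS η) (Real.log T) t| + B) ^ (2 * k) := by rw [mul_pow]
        _ ≤ 2048 ^ (2 * k) * (2 ^ (2 * k) * (|WW (MajS η) (Real.log T) t| ^ (2 * k) +
            B ^ (2 * k))) :=
            mul_le_mul_of_nonneg_left (Mg_add_pow (abs_nonneg _) hB0 _) (by positivity)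
        _ = _ := by
            rw [Even.pow_abs (even_two_mul k), mul_assoc]
    have hW2 : Continuous (fun t => (WW (MajS η) (Real.log T) t) ^ (2 * k)) := hWc.pow (2 * k)
    have hS2 : Continuous (fun t => (SS γ w ph0 (Real.log T) t) ^ (2 * k)) := hSc.pow (2 * k)
    have hW3 : Continuous (fun t => 2048 ^ (2 * k) * 2 ^ (2 * k) *
        ((WW (MajS η) (Real.log T) t) ^ (2 * k) + B ^ (2 * k))) :=
      (hW2.add continuous_const).const_mul _
    have hmono := intervalIntegral.integral_mono_on (μ := volume) hab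
      (hS2.intervalIntegrable _ _) (hW3.intervalIntegrable _ _) hpt
    refine hmono.trans ?_
    rw [intervalIntegral.integral_const_mul, intervalIntegral.integral_add
      (hW2.intervalIntegrable _ _) (continuous_const.intervalIntegrable _ _),
      intervalIntegral.integral_const, smul_eq_mul]
    have e : 2048 ^ (2 * k) * 2 ^ (2 * k) * (K + (C - c) * B ^ (2 * k)) * T =
        2048 ^ (2 * k) * 2 ^ (2 * k) * (K * T + (C * T - c * T) * B ^ (2 * k)) := by ring
    rw [e]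
    exact mul_le_mul_of_nonneg_left (by linarith) (by positivity)

/-- (2) -/
theorem mom_SS (I : Inputs γ w F CR) {φ : ℝ → ℝ} (hc : Continuous φ) {D : ℝ} (hD : 0 ≤ D)
    (hφ : ∀ u, |φ u| ≤ D / (1 + u ^ 2) ^ 2) : Mom (fun T t => SS γ w φ (Real.log T) t) := by
  refine Mom.of_le ?_ (mom_SS_ph0 I) fun c C _ _ => ⟨D, ?_⟩
  · filter_upwards [Real.tendsto_log_atTop.eventually_ge_atTop (2 * π)] with T hL
    exact continuous_SS_decay I.ord hc hD hφ hL
  · filter_upwards [Real.tendsto_log_atTop.eventually_ge_atTop (2 * π)] with T hL t _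
    have h1 := abs_SS_le_ph0 I.ord hD hφ hL t
    refine h1.trans (mul_le_mul_of_nonneg_left ?_ hD)
    have := le_abs_self (SS γ w ph0 (Real.log T) t)
    linarith

/-- (3) `WW φ` of ANY band `s < 1` has all moments. -/
theorem mom_WW (I : Inputs γ w F CR) {s : ℝ} {φ : ℝ → ℝ} (hφ : TestFn s φ) (hs : 0 < s) (hs1 : s < 1) :
    Mom (fun T t => WW φ (Real.log T) t) := by
  obtain ⟨D, hD0, hD⟩ := hφ.decay
  refine Mom.of_le ?_ (mom_SS I hφ.cont hD0 hD) fun c C hc hcC => ⟨|cosT φ 0| + 1 + 1, ?_⟩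
  · filter_upwards [Real.tendsto_log_atTop.eventually_ge_atTop 1] with T hL
    exact continuous_WW hφ (by linarith)
  · filter_upwards [SS_le_WW I hφ hs hs1 hc hcC] with T h t ht
    have h1 := (h t ht).2
    have h2 : 0 ≤ |cosT φ 0| := abs_nonneg _
    have h3 : 0 ≤ |SS γ w φ (Real.log T) t| := abs_nonneg _
    have h4 := mul_nonneg h2 h3
    have e : (|cosT φ 0| + 1 + 1) * (|SS γ w φ (Real.log T) t| + 1) =
        |cosT φ 0| * |SS γ w φ (Real.log T) t| + 2 * |SS γ w φ (Real.log T) t| +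
          |cosT φ 0| + 2 := by ring
    rw [e]
    linarith

end Pool.Agent.H98.GP
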