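import Mathlib
import Pool.Agent.H98.GP.D

/-!
# MP_103a5c_GP, block M, row Mh: smooth functions on (0, 1): division, even extension

Here `G : ℝ → ℝ` is smooth and vanishes outside `[α, β]`, `0 < α`.
PROOF of (1).  `ContDiff` is local (`contDiff_iff_contDiffAt`): at `x < α` the product `G g` vanishes near `x`; at
`x ≥ α > 0`... : if `x ∈ Ioo 0 M` use `hg` (`ContDiffOn` on the open set `Ioo 0 M`, `ContDiffOn.contDiffAt`), if `x ≤ α/2` or `x > β`
the product is locally zero (here `β < M`).
PROOF of (2).  `χ x = G |x| / |x|`.  Near `x > 0` (open set `Ioi 0`) it equals `G x / x`, near `x < 0` it equals `G (-x) / (-x)`, and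
for `|x| < α` it is zero; all three are smooth.  Even: clear.  Support: `|x| ≥ β → χ x = 0`.
For `x = log p / L > 0`: `|x| = x`.
-/

open MeasureTheory Set Filter Topology
open scoped Real Interval ContDiff

namespace Pool.Agent.H98.GP

open Pool.Agent.H6

/-- (1) -/
theorem contDiff_mul_of_supp {G g : ℝ → ℝ} (hG : ContDiff ℝ ∞ G) {α β M : ℝ} (hα : 0 < α) (hβM : β < M)
    (hsupp : ∀ x, x ≤ α ∨ β ≤ x → G x = 0) (hg : ContDiffOn ℝ ∞ g (Ioo 0 M)) :
    ContDiff ℝ ∞ (fun x => G x * g x) := by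
  rw [contDiff_iff_contDiffAt]
  intro x
  rcases lt_or_ge x α with hx | hx
  · have h : (fun x => G x * g x) =ᶠ[𝓝 x] fun _ => (0 : ℝ) := by
      filter_upwards [Iio_mem_nhds hx] with y hy
      rw [hsupp y (Or.inl (le_of_lt hy)), zero_mul]
    exact contDiffAt_const.congr_of_eventuallyEq h
  · rcases lt_or_ge x M with hx' | hx'
    · exact hG.contDiffAt.mul (hg.contDiffAt (Ioo_mem_nhds (lt_of_lt_of_le hα hx) hx'))
    · have h : (fun x => G x * g x) =ᶠ[𝓝 x] fun _ => (0 : ℝ) := by
        filter_upwards [Ioi_mem_nhds (lt_of_lt_of_le hβM hx')] with y hy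
        rw [hsupp y (Or.inr (le_of_lt hy)), zero_mul]
      exact contDiffAt_const.congr_of_eventuallyEq h

/-- (2) The even extension of `G x / x`. -/
theorem nice_ext {G : ℝ → ℝ} (hG : ContDiff ℝ ∞ G) {α β : ℝ} (hα : 0 < α) (hαβ : α < β)
    (hsupp : ∀ x, x ≤ α ∨ β ≤ x → G x = 0) :
    Nice (fun x => G |x| / |x|) ∧ ∀ x, β ≤ |x| → G |x| / |x| = 0 := by
  have hz : ∀ x, β ≤ |x| → G |x| / |x| = 0 := fun x hx => by
    rw [hsupp _ (Or.inr hx), zero_div]
  refine ⟨⟨?_, fun x => ?_, β, hα.trans hαβ, hz⟩, hz⟩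
  · rw [contDiff_iff_contDiffAt]
    intro x
    rcases lt_or_ge |x| α with hx | hx
    · have h : (fun x => G |x| / |x|) =ᶠ[𝓝 x] fun _ => (0 : ℝ) := by
        filter_upwards [(isOpen_Iio.preimage continuous_abs).mem_nhds hx] with y hy
        rw [hsupp _ (Or.inl (le_of_lt hy)), zero_div]
      exact contDiffAt_const.congr_of_eventuallyEq h
    · have hx0 : x ≠ 0 := by
        intro h
        rw [h, abs_zero] at hx
        exact absurd hx (not_le.2 hα)
      rcases lt_or_gt_of_ne hx0 with h0 | h0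
      · have h : (fun x => G |x| / |x|) =ᶠ[𝓝 x] fun y => G (-y) / (-y) := by
          filter_upwards [Iio_mem_nhds h0] with y hy
          rw [abs_of_neg hy]
        refine ContDiffAt.congr_of_eventuallyEq ?_ h
        exact (hG.comp contDiff_neg).contDiffAt.div contDiff_neg.contDiffAt (neg_ne_zero.2 hx0)
      · have h : (fun x => G |x| / |x|) =ᶠ[𝓝 x] fun y => G y / y := by
          filter_upwards [Ioi_mem_nhds h0] with y hy
          rw [abs_of_pos hy]
        refine ContDiffAt.congr_of_eventuallyEq ?_ h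
        exact hG.contDiffAt.div contDiffAt_id hx0
  · rw [abs_neg]

end Pool.Agent.H98.GP
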