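import Mathlib
import Pool.Agent.H98.GP.D
import Pool.Agent.H98.GP.Mc
import Pool.Agent.H98.GP.Mg
import Pool.Agent.H98.GP.Mh

/-!
# MP_103a5c_GP, block M, row Mi: all moments of smooth prime sums (cosine part)

PROOF of (1).  Put `χ x = G |x| / |x|`, `φ = cosT χ`.  By `nice_ext`, `Nice χ` vanishing for `|x| ≥ β`, so
`(nχ.reg hβ').test : TestFn β φ` and `nχ.inv : cosT φ ξ = χ ξ`.  For `p ∈ PS β L`, `x = log p / L > 0`:
`2/L * bb φ L p = 2/L * (log p * p^(-1/2) * (G x / x)) = 2 G x p^(-1/2)` (`ArithmeticFunction.vonMangoldt_apply_prime`).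
Hence `Σ_{p ∈ PS β L} (2/L bb φ L p) cos (t log p) = 2 CP G L t`: primes in `PS 1 L` but not in `PS β L` have
`p > exp (β L)`, i.e. `x > β`... (`⌊exp (β L)⌋₊ < p`, `Nat.lt_of_floor_lt`, `Real.lt_log_iff_exp_lt`), so `G x = 0`
(`Finset.sum_subset`, and `PS β L ⊆ PS 1 L` because `β ≤ 1`).  Now `WW_sub_prime` gives `|WW φ L t - 2 CP G L t| ≤ C`.
PROOF of (2).  `CP` is a finite sum of continuous functions of `t`.  `|CP| ≤ (|WW φ| + C)/2 ≤ (C + 1) (|WW φ| + 1)` for `log T ≥ 1`;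
`mom_WW` and `Mom.of_le`.
-/

open MeasureTheory Set Filter Topology
open scoped Real Interval ContDiff

namespace Pool.Agent.H98.GP

open Pool.Agent.H6

/-- (1) -/
theorem CP_eq_WW {G : ℝ → ℝ} (hG : ContDiff ℝ ∞ G) {α β : ℝ} (hα : 0 < α) (hαβ : α < β) (hβ : β ≤ 1)
    (hsupp : ∀ x, x ≤ α ∨ β ≤ x → G x = 0) :
    ∃ φ : ℝ → ℝ, TestFn β φ ∧ (∀ ξ, cosT φ ξ = G |ξ| / |ξ|) ∧ ∃ C : ℝ, 0 ≤ C ∧ ∀ L : ℝ, 1 ≤ L → ∀ t : ℝ,
      |WW φ L t - 2 * CP G L t| ≤ C := by
  obtain ⟨nχ, hz⟩ := nice_ext hG hα hαβ hsupp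
  have hφ : TestFn β (cosT fun x => G |x| / |x|) := (nχ.reg hz).test
  have hβ0 : 0 < β := hα.trans hαβ
  have hinv : ∀ ξ, cosT (cosT fun x => G |x| / |x|) ξ = G |ξ| / |ξ| := fun ξ => nχ.inv ξ
  refine ⟨_, hφ, hinv, ?_⟩
  obtain ⟨C, hC, h⟩ := WW_sub_prime hφ hβ0
  refine ⟨C, hC, fun L hL t => ?_⟩
  have hL0 : 0 < L := by linarith
  have key : ∑ p ∈ PS β L, (2 / L * bb (cosT fun x => G |x| / |x|) L p) * Real.cos (t * Real.log p)
      = 2 * CP G L t := by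
    rw [CP, Finset.mul_sum]
    have hsub : PS β L ⊆ PS 1 L := by
      intro p hp
      rw [PS, Finset.mem_filter, Finset.mem_Icc] at hp ⊢
      refine ⟨⟨hp.1.1, hp.1.2.trans (Nat.floor_le_floor (Real.exp_le_exp.2 (by nlinarith)))⟩, hp.2⟩
    rw [← Finset.sum_subset hsub]
    · apply Finset.sum_congr rfl
      intro p hp
      rw [PS, Finset.mem_filter, Finset.mem_Icc] at hp
      have hp2 : (1 : ℝ) < p := by exact_mod_cast (show 1 < p by omega)
      have hlog : 0 < Real.log p := Real.log_pos hp2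
      rw [bb, ArithmeticFunction.vonMangoldt_apply_prime hp.2, hinv, abs_of_pos (div_pos hlog hL0)]
      field_simp
    · intro p hp hnp
      rw [PS, Finset.mem_filter, Finset.mem_Icc] at hp hnp
      have h1 : ⌊Real.exp (β * L)⌋₊ < p := by
        by_contra hcon
        exact hnp ⟨⟨hp.1.1, not_lt.1 hcon⟩, hp.2⟩
      have h2 : Real.exp (β * L) < p := Nat.lt_of_floor_lt h1
      have h3 : β * L < Real.log p := (Real.lt_log_iff_exp_lt (lt_trans (Real.exp_pos _) h2)).2 h2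
      have h4 : β ≤ Real.log p / L := by
        rw [le_div_iff₀ hL0]
        exact h3.le
      rw [hsupp _ (Or.inr h4)]
      ring
  rw [← key]
  exact h L hL t

section
variable {ι : Type*} [Countable ι] {γ w : ι → ℝ} {F : ℝ → Finset ι} {CR : ℝ}

/-- (2) -/
theorem mom_CP (I : Inputs γ w F CR) {G : ℝ → ℝ} (hG : ContDiff ℝ ∞ G) {α β : ℝ} (hα : 0 < α) (hαβ : α < β)
    (hβ : β < 1) (hsupp : ∀ x, x ≤ α ∨ β ≤ x → G x = 0) : Mom (fun T t => CP G (Real.log T) t) := by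
  obtain ⟨φ, hφ, -, C, hC, h⟩ := CP_eq_WW hG hα hαβ hβ.le hsupp
  refine Mom.of_le (G := fun T t => WW φ (Real.log T) t) (Filter.Eventually.of_forall fun T => ?_)
    (mom_WW I hφ (hα.trans hαβ) hβ) fun c C' _ _ => ⟨C + 1, ?_⟩
  · show Continuous fun t => CP G (Real.log T) t
    unfold CP
    fun_prop
  · filter_upwards [eventually_ge_atTop (Real.exp 1)] with T hT t _
    have hL : 1 ≤ Real.log T := (Real.le_log_iff_exp_le (by linarith [Real.exp_pos 1])).2 hT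
    have h1 := abs_le.1 (h _ hL t)
    have h2 : |CP G (Real.log T) t| ≤ |WW φ (Real.log T) t| + C := by
      rcases abs_cases (CP G (Real.log T) t) with h3 | h3 <;>
        rcases abs_cases (WW φ (Real.log T) t) with h4 | h4 <;> linarith [h1.1, h1.2]
    have h5 : 0 ≤ |WW φ (Real.log T) t| := abs_nonneg _
    nlinarith

end

end Pool.Agent.H98.GP
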