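import Mathlib
import Pool.Agent.H98.GP.D
import Pool.Agent.H98.GP.Mi

/-!
# MP_103a5c_GP, block M, row Mj: sine part by the shift trick; counting function

PROOF of (1).  For a prime `p`, `x = log p / L`, `L > 0`: if `G x ≠ 0` then `0 < α < x < β ≤ 1 < π`, so `sin x > 0`, and
`(t + 1/L) log p = t log p + x`, `cos (t log p + x) = cos (t log p) cos x - sin (t log p) sin x`, hence
`G x sin (t log p) = (G x cos x / sin x) cos (t log p) - (G x / sin x) cos ((t + 1/L) log p)`.
If `G x = 0` both sides vanish.  Sum over `PS 1 L`.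
PROOF of (2).  `G1 = G cos/sin` and `G2 = G/sin` are smooth by `contDiff_mul_of_supp` with `M = π` (write as
`G x * (cos x / sin x)`, `G x * (sin x)⁻¹`; `sin ≠ 0` on `Ioo 0 π`, `β < 1 < π`) and vanish where `G` does.  So `mom_CP` applies to
both, `Mom.shift 1` to the second, `Mom.add`, `Mom.const_mul (-1)`, and `Mom.of_le` or congruence (the identity (1) holds for all `T` with
`log T > 0`, so `SP` is eventually equal to the combination; `Mom.of_le` with `A = 1` is enough, continuity of `SP` is clear).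
PROOF of (3).  If `x ≤ L (γ i - t)/(2π) ≤ y` then `u = L (t - γ i)/(2π)` satisfies `|u| ≤ R := max |x| |y|`, `ph0 u ≥ 1/(1 + R^2)^2`.
So the indicator is at most `(1 + R^2)^2 ph0 u`; sum with weights `w i ≥ 0` (`I.ord.w_nonneg`), using `Summable` of the right hand side
(`I.ord.summable_phi` with `φ = ph0`, `C = 1`, then `.of_abs`) and of the left (comparison).
-/

open MeasureTheory Set Filter Topology
open scoped Real Interval ContDiff

namespace Pool.Agent.H98.GP

open Pool.Agent.H6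

/-- (1) -/
theorem SP_eq {G : ℝ → ℝ} {α β : ℝ} (hα : 0 < α) (hβ : β ≤ 1) (hsupp : ∀ x, x ≤ α ∨ β ≤ x → G x = 0)
    {L : ℝ} (hL : 0 < L) (t : ℝ) :
    SP G L t = CP (fun x => G x * (Real.cos x / Real.sin x)) L t
      + (-1) * CP (fun x => G x * (Real.sin x)⁻¹) L (t + 1 / L) := by
  unfold SP CP
  rw [Finset.mul_sum, ← Finset.sum_add_distrib]
  refine Finset.sum_congr rfl fun p _ => ?_
  have e1 : (t + 1 / L) * Real.log p = t * Real.log p + Real.log p / L := by ring
  rw [e1]
  generalize (p : ℝ) ^ (-(1 / 2) : ℝ) = P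
  generalize t * Real.log p = y
  generalize Real.log p / L = x
  dsimp only
  by_cases hG : G x = 0
  · rw [hG]; simp
  have hx1 : α < x := by
    by_contra h
    exact hG (hsupp x (Or.inl (not_lt.1 h)))
  have hx2 : x < β := by
    by_contra h
    exact hG (hsupp x (Or.inr (not_lt.1 h)))
  have hs : Real.sin x ≠ 0 :=
    (Real.sin_pos_of_pos_of_lt_pi (by linarith) (by linarith [Real.pi_gt_three])).ne'
  rw [Real.cos_add]
  field_simp
  ring

section
variable {ι : Type*} [Countable ι] {γ w : ι → ℝ} {F : ℝ → Finset ι} {CR : ℝ}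

/-- (2) -/
theorem mom_SP (I : Inputs γ w F CR) {G : ℝ → ℝ} (hG : ContDiff ℝ ∞ G) {α β : ℝ} (hα : 0 < α) (hαβ : α < β)
    (hβ : β < 1) (hsupp : ∀ x, x ≤ α ∨ β ≤ x → G x = 0) : Mom (fun T t => SP G (Real.log T) t) := by
  have hβπ : β < π := by linarith [Real.pi_gt_three]
  have h1 : ContDiff ℝ ∞ (fun x => G x * (Real.cos x / Real.sin x)) :=
    contDiff_mul_of_supp hG hα hβπ hsupp (Real.contDiff_cos.contDiffOn.div Real.contDiff_sin.contDiffOn
      (fun x hx => (Real.sin_pos_of_pos_of_lt_pi hx.1 hx.2).ne'))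
  have h2 : ContDiff ℝ ∞ (fun x => G x * (Real.sin x)⁻¹) :=
    contDiff_mul_of_supp hG hα hβπ hsupp (Real.contDiff_sin.contDiffOn.inv
      (fun x hx => (Real.sin_pos_of_pos_of_lt_pi hx.1 hx.2).ne'))
  have hC1 := mom_CP I h1 hα hαβ hβ (fun x hx => by rw [hsupp x hx, zero_mul])
  have hC2 := mom_CP I h2 hα hαβ hβ (fun x hx => by rw [hsupp x hx, zero_mul])
  have hC3 := hC2.shift 1
  have hC4 := hC1.add (hC3.const_mul (-1))
  refine Mom.of_le ?_ hC4 ?_
  · refine Eventually.of_forall fun T => ?_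
    unfold SP
    fun_prop
  · intro c C _ _
    refine ⟨1, ?_⟩
    filter_upwards [eventually_gt_atTop (1 : ℝ)] with T hT t _
    rw [SP_eq hα hβ.le hsupp (Real.log_pos hT) t]
    linarith

/-- (3) The number of zeros in a window of length `O(1/log T)` is at most a constant times `SS ph0`. -/
theorem count_le (I : Inputs γ w F CR) (x y : ℝ) : ∃ D : ℝ, 0 ≤ D ∧ ∀ L : ℝ, 2 * π ≤ L → ∀ t : ℝ,
    (Summable fun i => if x ≤ L * (γ i - t) / (2 * π) ∧ L * (γ i - t) / (2 * π) ≤ y then w i else 0) ∧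
    (∑' i, if x ≤ L * (γ i - t) / (2 * π) ∧ L * (γ i - t) / (2 * π) ≤ y then w i else 0) ≤ D * SS γ w ph0 L t := by
  obtain ⟨R, hR⟩ : ∃ R : ℝ, R = max |x| |y| := ⟨_, rfl⟩
  refine ⟨(1 + R ^ 2) ^ 2, by positivity, ?_⟩
  intro L hL t
  have hφ : ∀ u, |ph0 u| ≤ 1 / (1 + u ^ 2) ^ 2 := by
    intro u
    unfold ph0
    rw [abs_of_nonneg (by positivity)]
  have hg : Summable fun i => w i * ph0 (L * (t - γ i) / (2 * π)) :=
    (I.ord.summable_phi zero_le_one hφ hL t).of_abs
  have h0 : ∀ i, 0 ≤ (if x ≤ L * (γ i - t) / (2 * π) ∧ L * (γ i - t) / (2 * π) ≤ y then w i else 0) := by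
    intro i
    split_ifs
    · exact I.ord.w_nonneg i
    · exact le_rfl
  have h1 : ∀ i, (if x ≤ L * (γ i - t) / (2 * π) ∧ L * (γ i - t) / (2 * π) ≤ y then w i else 0) ≤
      (1 + R ^ 2) ^ 2 * (w i * ph0 (L * (t - γ i) / (2 * π))) := by
    intro i
    have hw := I.ord.w_nonneg i
    split_ifs with h
    · obtain ⟨u, hu⟩ : ∃ u : ℝ, u = L * (t - γ i) / (2 * π) := ⟨_, rfl⟩
      have hv : L * (γ i - t) / (2 * π) = -u := by rw [hu]; ring
      rw [hv] at h
      rw [← hu]
      have hx : |x| ≤ R := by rw [hR]; exact le_max_left _ _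
      have hy : |y| ≤ R := by rw [hR]; exact le_max_right _ _
      have hab : |-u| ≤ |R| := by
        rw [abs_of_nonneg ((abs_nonneg x).trans hx)]
        refine abs_le.2 ⟨?_, ?_⟩
        · linarith [neg_abs_le x, h.1]
        · linarith [le_abs_self y, h.2]
      have hsq : u ^ 2 ≤ R ^ 2 := by
        have := sq_le_sq.2 hab
        rwa [neg_sq] at this
      have h3 : 1 ≤ (1 + R ^ 2) ^ 2 * ph0 u := by
        unfold ph0
        rw [mul_one_div, le_div_iff₀ (by positivity), one_mul]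
        exact pow_le_pow_left₀ (by positivity) (by linarith) 2
      calc w i = w i * 1 := (mul_one _).symm
        _ ≤ w i * ((1 + R ^ 2) ^ 2 * ph0 u) := mul_le_mul_of_nonneg_left h3 hw
        _ = (1 + R ^ 2) ^ 2 * (w i * ph0 u) := by ring
    · unfold ph0
      positivity
  have hf : Summable fun i => if x ≤ L * (γ i - t) / (2 * π) ∧ L * (γ i - t) / (2 * π) ≤ y then w i else 0 :=
    Summable.of_nonneg_of_le h0 h1 (hg.mul_left _)
  refine ⟨hf, ?_⟩
  refine (Summable.tsum_le_tsum h1 hf (hg.mul_left _)).trans ?_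
  rw [tsum_mul_left]
  exact le_rfl

end

end Pool.Agent.H98.GP
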