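import Mathlib
import Pool.Agent.H98.GP.D
import Pool.Agent.H98.GP.Mj
import Pool.Agent.H14.GP.Defs

/-!
# MP_103a5c_GP, block M, row Mk: bridge to the interface of H14/GP/Defs (ev, bb, EE, evP)

PROOF of (1).  `bb G T = Σ_p single p (..)`; `map_sum`, `ev t (single p c) = c • chi t p` (`MonoidAlgebra.lift_single`),
`chi t p = exp (-(t log p) I) = cos (t log p) - sin (t log p) I` for `p ≠ 0`.  The index sets agree:
`(Finset.range (⌊T⌋₊ + 1)).filter Prime = PS 1 (log T)` since `exp (1 * log T) = T` and primes are at least 2.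
PROOF of (2).  `‖CP - SP I‖ ≤ |CP| + |SP|`; `Mom.of_le` with the function `CP + SP`?  NO: use
`‖ev‖ ≤ |CP| + |SP| ≤ (CP^2 + SP^2 + 1)`: `Mom.of_le` with `G := CP * CP + SP * SP` (`Mom.mul`, `Mom.add`), `A = 1`:
`|CP| + |SP| ≤ CP^2 + SP^2 + 1` (`x ≤ x^2 + 1/4`).  Continuity: (1) and continuity of finite sums, valid for `T > 0`.
PROOF of (3).  Let `[a, b]` contain the support of `v`, `|v| ≤ B` (`hv.smooth.continuous`, compact support).  For `T > 0`
`EE v T f = (1/T) ∫ t, v (t/T) f t = (1/T) ∫ t in (aT)..(bT), v (t/T) f t ≤ (B/T) ∫_{aT}^{bT} |F T t| ^ n ≤ B K` by `Mom.abs_pow`.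
(`setIntegral_eq_integral_of_forall_compl_eq_zero` / `intervalIntegral.integral_of_le`, `integral_Icc_eq_integral_Ioc`.)
PROOF of (4).  `MvPolynomial.induction_on P`: constants (`Mom.const`; `evP G T t (C a) = a`, norm `|a|`), sums (`norm_add_le`, `Mom.of_le` with
`A = 1` and `Mom.add`, norms are nonnegative so `|x + y| = x + y`), multiplication by a variable (`norm_mul`, `Mom.mul`, `‖conj z‖ = ‖z‖`).  For the
variables: `Cells.smooth`, `Cells.low` (a common `a > 0`; take `α = min a (1/4)`, `β = 1/2`), `Cells.cell` (`G j x ≠ 0 → x < θ j / M ≤ θ < 1/2`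
if `j < M`; if `M ≤ j` or `j < 1` it is identically zero by `Cells.out`): so `mom_norm_bb` applies.
PROOF of (5).  `|AR| = |re (evP ..)| ≤ ‖evP ..‖`, (4), (3).
-/

open MeasureTheory Set Filter Topology
open scoped Real Interval ContDiff

namespace Pool.Agent.H98.GP

open Pool.Agent.H6 Pool.Agent.H14.GP

lemma Mk_continuous_CP (G : ℝ → ℝ) (L : ℝ) : Continuous (CP G L) := by
  unfold CP
  refine continuous_finset_sum _ fun p _ => ?_
  fun_prop

lemma Mk_continuous_SP (G : ℝ → ℝ) (L : ℝ) : Continuous (SP G L) := by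
  unfold SP
  refine continuous_finset_sum _ fun p _ => ?_
  fun_prop

/-- (1) -/
theorem ev_bb (G : ℝ → ℝ) {T : ℝ} (hT : 0 < T) (t : ℝ) :
    ev t (bb G T) = (CP G (Real.log T) t : ℂ) - (SP G (Real.log T) t : ℂ) * Complex.I := by
  have hset : (Finset.range (⌊T⌋₊ + 1)).filter Nat.Prime = PS 1 (Real.log T) := by
    unfold PS
    rw [one_mul, Real.exp_log hT]
    ext p
    simp only [Finset.mem_filter, Finset.mem_range, Finset.mem_Icc]
    constructor
    · rintro ⟨h1, h2⟩
      exact ⟨⟨h2.two_le, by omega⟩, h2⟩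
    · rintro ⟨⟨_, h1⟩, h2⟩
      exact ⟨by omega, h2⟩
  unfold Pool.Agent.H14.GP.bb
  rw [hset, map_sum]
  unfold CP SP
  push_cast
  rw [Finset.sum_mul, ← Finset.sum_sub_distrib]
  apply Finset.sum_congr rfl
  intro p hp
  have hpp : p.Prime := (Finset.mem_filter.1 hp).2
  have hchi : chi t p = Complex.cos ((t * Real.log p : ℝ) : ℂ) - Complex.sin ((t * Real.log p : ℝ) : ℂ) * Complex.I := by
    change (if p = 0 then (0 : ℂ) else Complex.exp (-((t * Real.log p : ℝ) : ℂ) * Complex.I)) = _
    rw [if_neg hpp.ne_zero, Complex.exp_mul_I, Complex.cos_neg, Complex.sin_neg]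
    ring
  have hev : ev t (MonoidAlgebra.single p (G (Real.log p / Real.log T) * (p : ℝ) ^ (-(1 / 2) : ℝ)))
      = (G (Real.log p / Real.log T) * (p : ℝ) ^ (-(1 / 2) : ℝ)) • chi t p := by
    unfold ev
    rw [MonoidAlgebra.lift_single]
  rw [hev, hchi, Complex.real_smul]
  push_cast
  ring

lemma Mk_continuous_ev (G : ℝ → ℝ) {T : ℝ} (hT : 0 < T) : Continuous (fun t => ev t (bb G T : DPoly)) := by
  have h : (fun t => ev t (bb G T : DPoly)) =
      fun t => (CP G (Real.log T) t : ℂ) - (SP G (Real.log T) t : ℂ) * Complex.I := by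
    funext t
    exact ev_bb G hT t
  rw [h]
  have h1 := Mk_continuous_CP G (Real.log T)
  have h2 := Mk_continuous_SP G (Real.log T)
  fun_prop

section
variable {ι : Type*} [Countable ι] {γ w : ι → ℝ} {F : ℝ → Finset ι} {CR : ℝ}

/-- (2) -/
theorem mom_norm_bb (I : Inputs γ w F CR) {G : ℝ → ℝ} (hG : ContDiff ℝ ∞ G) {α β : ℝ} (hα : 0 < α) (hαβ : α < β)
    (hβ : β < 1) (hsupp : ∀ x, x ≤ α ∨ β ≤ x → G x = 0) : Mom (fun T t => ‖ev t (bb G T)‖) := by
  have h1 := mom_CP I hG hα hαβ hβ hsupp
  have h2 := mom_SP I hG hα hαβ hβ hsupp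
  refine Mom.of_le ?_ ((h1.mul h1).add (h2.mul h2)) ?_
  · filter_upwards [eventually_gt_atTop (0 : ℝ)] with T hT
    exact (Mk_continuous_ev G hT).norm
  · intro c C _ _
    refine ⟨1, ?_⟩
    filter_upwards [eventually_gt_atTop (0 : ℝ)] with T hT
    intro t _
    rw [abs_of_nonneg (norm_nonneg _), ev_bb G hT t]
    have h3 : ‖(CP G (Real.log T) t : ℂ) - (SP G (Real.log T) t : ℂ) * Complex.I‖
        ≤ |CP G (Real.log T) t| + |SP G (Real.log T) t| := by
      refine (norm_sub_le _ _).trans ?_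
      rw [norm_mul, Complex.norm_I, mul_one, Complex.norm_real, Complex.norm_real, Real.norm_eq_abs, Real.norm_eq_abs]
    refine h3.trans ?_
    have h4 : 0 ≤ CP G (Real.log T) t * CP G (Real.log T) t + SP G (Real.log T) t * SP G (Real.log T) t := by
      nlinarith [mul_self_nonneg (CP G (Real.log T) t), mul_self_nonneg (SP G (Real.log T) t)]
    rw [one_mul, abs_of_nonneg h4]
    have h5 : |CP G (Real.log T) t| * |CP G (Real.log T) t| = CP G (Real.log T) t * CP G (Real.log T) t :=
      abs_mul_abs_self _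
    have h6 : |SP G (Real.log T) t| * |SP G (Real.log T) t| = SP G (Real.log T) t * SP G (Real.log T) t :=
      abs_mul_abs_self _
    nlinarith [mul_self_nonneg (|CP G (Real.log T) t| - 1 / 2), mul_self_nonneg (|SP G (Real.log T) t| - 1 / 2)]

/-- (3) -/
theorem EE_le_of_Mom {v : ℝ → ℝ} (hv : Wgt v) {H : ℝ → ℝ → ℝ} (hH : Mom H) (n : ℕ) :
    ∃ K : ℝ, ∀ᶠ T in atTop, EE v T (fun t => |H T t| ^ n) ≤ K := by
  obtain ⟨a, b, ha, hab, hsupp⟩ := hv.supp
  have hvc : Continuous v := hv.smooth.continuous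
  obtain ⟨B, hB⟩ := (isCompact_Icc (a := a) (b := b)).exists_bound_of_continuousOn hvc.continuousOn
  have hB0 : 0 ≤ B := (norm_nonneg _).trans (hB a ⟨le_refl _, hab.le⟩)
  have hvB : ∀ x, v x ≤ B := by
    intro x
    by_cases hx : x ∈ Icc a b
    · exact (le_abs_self _).trans (hB x hx)
    · rw [hsupp x hx]
      exact hB0
  obtain ⟨K, hK⟩ := hH.abs_pow n ha hab
  refine ⟨B * K, ?_⟩
  filter_upwards [hK, hH.cont, eventually_gt_atTop (0 : ℝ)] with T hKT hcT hT
  unfold EE
  have hle : a * T ≤ b * T := mul_le_mul_of_nonneg_right hab.le hT.le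
  have h1 : (∫ t, v (t / T) * |H T t| ^ n) = ∫ t in (a * T)..(b * T), v (t / T) * |H T t| ^ n := by
    rw [intervalIntegral.integral_of_le hle, ← integral_Icc_eq_integral_Ioc]
    symm
    apply setIntegral_eq_integral_of_forall_compl_eq_zero
    intro t ht
    have h2 : t / T ∉ Icc a b := by
      intro h3
      apply ht
      rw [Set.mem_Icc, le_div_iff₀ hT, div_le_iff₀ hT] at h3
      exact h3
    rw [hsupp _ h2, zero_mul]
  have hc1 : Continuous (fun t => v (t / T) * |H T t| ^ n) :=
    (hvc.comp (continuous_id.div_const T)).mul (hcT.abs.pow n)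
  have hc2 : Continuous (fun t => B * |H T t| ^ n) := continuous_const.mul (hcT.abs.pow n)
  have h2 : (∫ t in (a * T)..(b * T), v (t / T) * |H T t| ^ n) ≤ ∫ t in (a * T)..(b * T), B * |H T t| ^ n := by
    apply intervalIntegral.integral_mono_on hle (hc1.intervalIntegrable _ _) (hc2.intervalIntegrable _ _)
    intro t _
    exact mul_le_mul_of_nonneg_right (hvB _) (by positivity)
  rw [intervalIntegral.integral_const_mul] at h2
  have h3 : (∫ t, v (t / T) * |H T t| ^ n) ≤ B * (K * T) := by
    rw [h1]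
    exact h2.trans (mul_le_mul_of_nonneg_left hKT hB0)
  calc 1 / T * ∫ t, v (t / T) * |H T t| ^ n ≤ 1 / T * (B * (K * T)) :=
        mul_le_mul_of_nonneg_left h3 (by positivity)
    _ = B * K := by field_simp

lemma Mk_continuous_evP (G : ℕ → ℝ → ℝ) {T : ℝ} (hT : 0 < T) (P : PP) : Continuous (fun t => evP G T t P) := by
  induction P using MvPolynomial.induction_on with
  | C a =>
    have : (fun t => evP G T t (MvPolynomial.C a)) = fun _ => (a : ℂ) := by
      funext t
      unfold evP
      rw [MvPolynomial.aeval_C]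
      rfl
    rw [this]
    exact continuous_const
  | add p q hp hq =>
    simp only [map_add]
    exact hp.add hq
  | mul_X p i hp =>
    simp only [map_mul]
    refine hp.mul ?_
    rcases i with j | j
    · have : (fun t => evP G T t (MvPolynomial.X (Sum.inl j))) = fun t => ev t (bb (G j) T : DPoly) := by
        funext t
        unfold evP
        rw [MvPolynomial.aeval_X]
        rfl
      rw [this]
      exact Mk_continuous_ev (G j) hT
    · have : (fun t => evP G T t (MvPolynomial.X (Sum.inr j))) =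
          fun t => (starRingEnd ℂ) (ev t (bb (G j) T : DPoly)) := by
        funext t
        unfold evP
        rw [MvPolynomial.aeval_X]
        rfl
      rw [this]
      exact Complex.continuous_conj.comp (Mk_continuous_ev (G j) hT)

/-- (4) -/
theorem mom_evP (I : Inputs γ w F CR) {M : ℕ} {θ : ℝ} {G : ℕ → ℝ → ℝ} (hG : Cells M θ G) (P : PP) :
    Mom (fun T t => ‖evP G T t P‖) := by
  obtain ⟨a, ha, hlow⟩ := hG.low
  have hM : (0 : ℝ) < M := by
    have := hG.M_pos
    exact_mod_cast (by omega : 0 < M)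
  have hvar : ∀ j, Mom (fun T t => ‖ev t (bb (G j) T : DPoly)‖) := by
    intro j
    refine mom_norm_bb I (hG.smooth j) (α := min a (1 / 4)) (β := 1 / 2) (lt_min ha (by norm_num)) ?_ (by norm_num) ?_
    · exact (min_le_right _ _).trans_lt (by norm_num)
    · rintro x (hx | hx)
      · exact hlow j x (hx.trans (min_le_left _ _))
      · by_contra hne
        have h1 := (hG.cell j x hne).2
        by_cases hj : j < 1 ∨ M ≤ j
        · exact hne (hG.out j hj x)
        · push Not at hj
          have h2 : (j : ℝ) ≤ M := by exact_mod_cast hj.2.le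
          have h3 : θ * j / M ≤ θ := by
            rw [div_le_iff₀ hM]
            exact mul_le_mul_of_nonneg_left h2 hG.θ_pos.le
          have h4 := hG.θ_lt
          linarith
  induction P using MvPolynomial.induction_on with
  | C r =>
    have : (fun T t => ‖evP G T t (MvPolynomial.C r)‖) = fun _ _ => |r| := by
      funext T t
      unfold evP
      rw [MvPolynomial.aeval_C]
      change ‖(r : ℂ)‖ = |r|
      rw [Complex.norm_real, Real.norm_eq_abs]
    rw [this]
    exact Mom.const _
  | add p q hp hq =>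
    refine Mom.of_le ?_ (hp.add hq) ?_
    · filter_upwards [eventually_gt_atTop (0 : ℝ)] with T hT
      exact (Mk_continuous_evP G hT (p + q)).norm
    · intro c C _ _
      refine ⟨1, Eventually.of_forall fun T t _ => ?_⟩
      rw [abs_of_nonneg (norm_nonneg _), one_mul, map_add]
      have h1 := norm_add_le (evP G T t p) (evP G T t q)
      have h2 := le_abs_self (‖evP G T t p‖ + ‖evP G T t q‖)
      linarith
  | mul_X p i hp =>
    rcases i with j | j
    · have : (fun T t => ‖evP G T t (p * MvPolynomial.X (Sum.inl j))‖) =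
          fun T t => ‖evP G T t p‖ * ‖ev t (bb (G j) T : DPoly)‖ := by
        funext T t
        rw [map_mul, norm_mul]
        congr 1
        unfold evP
        rw [MvPolynomial.aeval_X]
        rfl
      rw [this]
      exact hp.mul (hvar j)
    · have : (fun T t => ‖evP G T t (p * MvPolynomial.X (Sum.inr j))‖) =
          fun T t => ‖evP G T t p‖ * ‖ev t (bb (G j) T : DPoly)‖ := by
        funext T t
        rw [map_mul, norm_mul]
        congr 1
        unfold evP
        rw [MvPolynomial.aeval_X]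
        exact Complex.norm_conj _
      rw [this]
      exact hp.mul (hvar j)

/-- (5) -/
theorem EE_AR_le (I : Inputs γ w F CR) {v : ℝ → ℝ} (hv : Wgt v) {M : ℕ} {θ : ℝ} {G : ℕ → ℝ → ℝ} (hG : Cells M θ G)
    (c : ℝ) (R : ℕ) (f : ℕ → ℝ) (n : ℕ) :
    ∃ K : ℝ, ∀ᶠ T in atTop, EE v T (fun t => |AR c R M f G T t| ^ n) ≤ K := by
  have h1 : Mom (fun T t => AR c R M f G T t) := by
    refine Mom.of_le ?_ (mom_evP I hG (Amp c R M f)) ?_
    · filter_upwards [eventually_gt_atTop (0 : ℝ)] with T hT
      exact Complex.continuous_re.comp (Mk_continuous_evP G hT (Amp c R M f))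
    · intro c' C' _ _
      refine ⟨1, Eventually.of_forall fun T t _ => ?_⟩
      have h2 : |AR c R M f G T t| ≤ ‖evP G T t (Amp c R M f)‖ := Complex.abs_re_le_norm _
      have h3 := le_abs_self ‖evP G T t (Amp c R M f)‖
      linarith
  exact EE_le_of_Mom hv h1 n

/-- (6) -/
theorem EE_SS_le (I : Inputs γ w F CR) {v : ℝ → ℝ} (hv : Wgt v) {φ : ℝ → ℝ} (hc : Continuous φ) {D : ℝ} (hD : 0 ≤ D)
    (hφ : ∀ u, |φ u| ≤ D / (1 + u ^ 2) ^ 2) (n : ℕ) :
    ∃ K : ℝ, ∀ᶠ T in atTop, EE v T (fun t => |SS γ w φ (Real.log T) t| ^ n) ≤ K :=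
  EE_le_of_Mom hv (mom_SS I hc hD hφ) n

end

end Pool.Agent.H98.GP
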